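import Mathlib

/-!
# Averages over a Clifford group
-/

set_option autoImplicit false
set_option linter.unusedSectionVars false

open Matrix Finset Module

namespace Pool.Agent.L5helper24.KS

noncomputable section

variable {κ ι : Type} [Fintype κ] [DecidableEq κ]

/-- `a` are generators of a Clifford algebra with the unit `e`. -/
structure Clif (e : Matrix κ κ ℂ) (a : ι → Matrix κ κ ℂ) : Prop where
  ee : e * e = e
  ea : ∀ k, e * a k = a k
  ae : ∀ k, a k * e = a k
  sq : ∀ k, a k * a k = e
  anti : ∀ k l, k ≠ l → a k * a l = -(a l * a k)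

variable {e : Matrix κ κ ℂ} {a : ι → Matrix κ κ ℂ}

/-- `P` is in the corner of `e` and commutes with the generators. -/
structure Cm (e : Matrix κ κ ℂ) (a : ι → Matrix κ κ ℂ) (P : Matrix κ κ ℂ) : Prop where
  l : e * P = P
  r : P * e = P
  c : ∀ k, P * a k = a k * P

/-- `N` is in the corner of `e` and anticommutes with the generators. -/
structure Ac (e : Matrix κ κ ℂ) (a : ι → Matrix κ κ ℂ) (N : Matrix κ κ ℂ) : Prop where
  l : e * N = N
  r : N * e = N
  c : ∀ k, N * a k = -(a k * N)

theorem Ac.mul {N N' : Matrix κ κ ℂ} (h : Ac e a N) (h' : Ac e a N') : Cm e a (N * N') where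
  l := by rw [← mul_assoc, h.l]
  r := by rw [mul_assoc, h'.r]
  c k := by rw [mul_assoc, h'.c, mul_neg, ← mul_assoc, h.c, neg_mul, neg_neg, mul_assoc]

theorem Cm.mul {N N' : Matrix κ κ ℂ} (h : Cm e a N) (h' : Cm e a N') : Cm e a (N * N') where
  l := by rw [← mul_assoc, h.l]
  r := by rw [mul_assoc, h'.r]
  c k := by rw [mul_assoc, h'.c, ← mul_assoc, h.c, mul_assoc]

theorem Cm.mul_ac {N N' : Matrix κ κ ℂ} (h : Cm e a N) (h' : Ac e a N') : Ac e a (N * N') where
  l := by rw [← mul_assoc, h.l]
  r := by rw [mul_assoc, h'.r]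
  c k := by rw [mul_assoc, h'.c, mul_neg, ← mul_assoc, h.c, mul_assoc]

theorem Ac.mul_cm {N N' : Matrix κ κ ℂ} (h : Ac e a N) (h' : Cm e a N') : Ac e a (N * N') where
  l := by rw [← mul_assoc, h.l]
  r := by rw [mul_assoc, h'.r]
  c k := by rw [mul_assoc, h'.c, ← mul_assoc, h.c, neg_mul, mul_assoc]

/-- the average over the Clifford group generated by the elements of a list -/
def av (e : Matrix κ κ ℂ) (a : ι → Matrix κ κ ℂ) : List ι → Matrix κ κ ℂ → Matrix κ κ ℂ
  | [], Y => e * Y * e
  | k :: l, Y => (1 / 2 : ℂ) • (av e a l Y + a k * av e a l Y * a k)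

section
variable (h : Clif e a)
include h

theorem av_l (l : List ι) (Y : Matrix κ κ ℂ) : e * av e a l Y = av e a l Y := by
  induction l with
  | nil => rw [av, ← mul_assoc, ← mul_assoc, h.ee]
  | cons k l ih => rw [av, mul_smul_comm, mul_add, ih, ← mul_assoc, ← mul_assoc, h.ea]

theorem av_r (l : List ι) (Y : Matrix κ κ ℂ) : av e a l Y * e = av e a l Y := by
  induction l with
  | nil => rw [av, mul_assoc, h.ee]
  | cons k l ih => rw [av, smul_mul_assoc, add_mul, ih, mul_assoc, h.ae]

theorem av_c (l : List ι) (Y : Matrix κ κ ℂ) (k : ι) (hk : k ∈ l) :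
    av e a l Y * a k = a k * av e a l Y := by
  classical
  induction l with
  | nil => simp at hk
  | cons k' l ih =>
    by_cases hkk : k = k'
    · subst hkk
      rw [av, smul_mul_assoc, mul_smul_comm, add_mul, mul_add, mul_assoc, h.sq, mul_assoc,
        av_r h, ← mul_assoc (a k), ← mul_assoc (a k), h.sq, av_l h, add_comm]
    · have hk' : k ∈ l := by simpa [hkk] using hk
      have h1 := ih hk'
      rw [av, smul_mul_assoc, mul_smul_comm, add_mul, mul_add, h1]
      congr 2
      calc a k' * av e a l Y * a k' * a k = a k' * (av e a l Y * (a k' * a k)) := by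
            simp only [mul_assoc]
        _ = -(a k' * (av e a l Y * a k * a k')) := by
            rw [h.anti k' k (Ne.symm hkk), mul_neg, mul_neg, mul_assoc (av e a l Y)]
        _ = -(a k' * a k * (av e a l Y * a k')) := by rw [h1]; simp only [mul_assoc]
        _ = a k * (a k' * av e a l Y * a k') := by
            rw [h.anti k' k (Ne.symm hkk), neg_mul, neg_neg]; simp only [mul_assoc]

theorem av_cm {l : List ι} (hl : ∀ k, k ∈ l) (Y : Matrix κ κ ℂ) : Cm e a (av e a l Y) :=
  ⟨av_l h l Y, av_r h l Y, fun k => av_c h l Y k (hl k)⟩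

theorem av_mul (l : List ι) (Y : Matrix κ κ ℂ) {C : Matrix κ κ ℂ} (hC : Cm e a C) :
    av e a l (Y * C) = av e a l Y * C := by
  induction l with
  | nil => rw [av, av, mul_assoc, mul_assoc, hC.r, mul_assoc, mul_assoc, hC.l]
  | cons k l ih =>
    rw [av, av, ih, smul_mul_assoc, add_mul, mul_assoc (a k), mul_assoc (av e a l Y), hC.c k]
    simp only [mul_assoc]

theorem av_e (l : List ι) : av e a l e = e := by
  induction l with
  | nil => rw [av, h.ee, h.ee]
  | cons k l ih =>
    rw [av, ih, h.ae, h.sq, ← two_smul ℂ e, smul_smul]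
    norm_num

end

theorem av_add (l : List ι) (Y Y' : Matrix κ κ ℂ) :
    av e a l (Y + Y') = av e a l Y + av e a l Y' := by
  induction l with
  | nil => rw [av, av, av, mul_add, add_mul]
  | cons k l ih =>
    rw [av, av, av, ih, mul_add, add_mul]
    module

theorem av_smul (l : List ι) (z : ℂ) (Y : Matrix κ κ ℂ) :
    av e a l (z • Y) = z • av e a l Y := by
  induction l with
  | nil => rw [av, av, mul_smul_comm, smul_mul_assoc]
  | cons k l ih =>
    rw [av, av, ih, mul_smul_comm, smul_mul_assoc]
    module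

theorem av_sum (l : List ι) {α : Type} (s : Finset α) (Y : α → Matrix κ κ ℂ) :
    av e a l (∑ i ∈ s, Y i) = ∑ i ∈ s, av e a l (Y i) := by
  classical
  induction s using Finset.induction_on with
  | empty =>
    have := av_smul (e := e) (a := a) l 0 0
    rw [zero_smul, zero_smul] at this
    rw [Finset.sum_empty, Finset.sum_empty, this]
  | insert i s hi ih => rw [Finset.sum_insert hi, Finset.sum_insert hi, av_add, ih]

/-- the contraction of an average -/
def ct (e : Matrix κ κ ℂ) (a : ι → Matrix κ κ ℂ) (l : List ι) (X : Matrix κ κ ℂ) :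
    Matrix κ κ ℂ :=
  ∑ i, ∑ j, Matrix.single j i 1 * X * av e a l (Matrix.single i j 1)

theorem ct_aux (A B : Matrix κ κ ℂ) :
    ∑ i, ∑ j, Matrix.single j i (1 : ℂ) * A * (Matrix.single i j 1 * B) = A.trace • B := by
  have h1 : ∀ i j : κ, Matrix.single j i (1 : ℂ) * A * (Matrix.single i j 1 * B) =
      A i i • (Matrix.single j j 1 * B) := by
    intro i j
    have h2 : Matrix.single j i (1 : ℂ) * A * Matrix.single i j 1 =
        A i i • Matrix.single j j 1 := by
      ext a b
      rw [Matrix.smul_apply, Matrix.single_apply]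
      by_cases hb : b = j
      · subst hb
        by_cases ha : a = b
        · subst ha
          simp
        · simp [Ne.symm ha, ha]
      · simp [Ne.symm hb, hb]
    rw [← mul_assoc, h2, smul_mul_assoc]
  simp only [h1]
  have h3 : ∀ i : κ, ∑ j, A i i • (Matrix.single j j (1 : ℂ) * B) = A i i • B := by
    intro i
    rw [← Finset.smul_sum, ← Finset.sum_mul]
    have h4 : ∑ j : κ, Matrix.single j j (1 : ℂ) = 1 := by
      ext a b
      rw [Matrix.sum_apply]
      simp only [Matrix.single_apply, Matrix.one_apply, Finset.sum_boole]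
      by_cases hab : a = b
      · subst hab
        have : (Finset.univ.filter fun x : κ => x = a ∧ x = a) = {a} := by
          ext x; simp
        rw [this]
        simp
      · rw [if_neg hab, Finset.card_eq_zero.2]
        · simp
        · rw [Finset.filter_eq_empty_iff]
          rintro x - ⟨rfl, rfl⟩
          exact hab rfl
    rw [h4, one_mul]
  simp only [h3]
  rw [← Finset.sum_smul]
  rfl

theorem ct_nil (X : Matrix κ κ ℂ) : ct e a [] X = (X * e).trace • e := by
  rw [ct, ← ct_aux]
  refine Finset.sum_congr rfl fun i _ => Finset.sum_congr rfl fun j _ => ?_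
  rw [av]
  simp only [mul_assoc]

theorem ct_cons (k : ι) (l : List ι) (X : Matrix κ κ ℂ) :
    ct e a (k :: l) X = (1 / 2 : ℂ) • (ct e a l X + ct e a l (X * a k) * a k) := by
  rw [ct, ct, ct, Finset.sum_mul, ← Finset.sum_add_distrib, Finset.smul_sum]
  refine Finset.sum_congr rfl fun i _ => ?_
  rw [Finset.sum_mul, ← Finset.sum_add_distrib, Finset.smul_sum]
  refine Finset.sum_congr rfl fun j _ => ?_
  rw [av, mul_smul_comm, mul_add]
  simp only [mul_assoc]

/-- product of the generators in a list -/
def wordp (a : ι → Matrix κ κ ℂ) (l : List ι) : Matrix κ κ ℂ := (l.map a).prod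

theorem ct_zero (l : List ι) (X : Matrix κ κ ℂ)
    (hX : ∀ I, I.Sublist l → (X * wordp a I * e).trace = 0) : ct e a l X = 0 := by
  induction l generalizing X with
  | nil =>
    have := hX [] (List.Sublist.refl _)
    rw [wordp, List.map_nil, List.prod_nil, mul_one] at this
    rw [ct_nil, this, zero_smul]
  | cons k l ih =>
    rw [ct_cons, ih X (fun I hI => hX I (hI.cons k)), ih (X * a k), zero_mul, add_zero, smul_zero]
    intro I hI
    have := hX (k :: I) (hI.cons_cons k)
    rw [wordp, List.map_cons, List.prod_cons, ← mul_assoc] at this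
    exact this

theorem ct_eq (l : List ι) (X : Matrix κ κ ℂ)
    (hX : ∀ I, I ≠ [] → I.Sublist l → (X * wordp a I * e).trace = 0) :
    ct e a l X = (1 / 2 : ℂ) ^ l.length • ((X * e).trace • e) := by
  induction l with
  | nil => rw [ct_nil, List.length_nil, pow_zero, one_smul]
  | cons k l ih =>
    rw [ct_cons, ih (fun I hI0 hI => hX I hI0 (hI.cons k)), ct_zero l (X * a k), zero_mul,
      add_zero, smul_smul, List.length_cons, pow_succ, mul_comm]
    intro I hI
    have := hX (k :: I) (by simp) (hI.cons_cons k)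
    rw [wordp, List.map_cons, List.prod_cons, ← mul_assoc] at this
    exact this

/-- moving a generator through a word -/
theorem word_comm (h : Clif e a) (k : ι) (I : List ι) (hk : k ∉ I) :
    wordp a I * a k = (-1 : ℂ) ^ I.length • (a k * wordp a I) := by
  induction I with
  | nil => simp [wordp]
  | cons k' I ih =>
    have hk1 : k ≠ k' := fun h' => hk (by rw [h']; exact List.mem_cons_self)
    have hk2 : k ∉ I := fun h' => hk (List.mem_cons_of_mem _ h')
    have h1 := ih hk2
    have h2 : wordp a (k' :: I) = a k' * wordp a I := by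
      rw [wordp, List.map_cons, List.prod_cons]; rfl
    rw [h2, mul_assoc, h1, mul_smul_comm, ← mul_assoc, h.anti k' k hk1.symm, List.length_cons,
      pow_succ, mul_neg_one, neg_smul, neg_mul, smul_neg, mul_assoc]

/-- moving an anticommuting element through a word -/
theorem word_anti {N : Matrix κ κ ℂ} (hN : Ac e a N) (I : List ι) :
    N * wordp a I = (-1 : ℂ) ^ I.length • (wordp a I * N) := by
  induction I with
  | nil => simp [wordp]
  | cons k' I ih =>
    have h2 : wordp a (k' :: I) = a k' * wordp a I := by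
      rw [wordp, List.map_cons, List.prod_cons]; rfl
    rw [h2, ← mul_assoc, hN.c, neg_mul, mul_assoc, ih, List.length_cons, pow_succ, mul_neg_one,
      neg_smul, mul_smul_comm, mul_assoc]

theorem self_neg {z : ℂ} (h : z = -z) : z = 0 := by
  have : (2 : ℂ) * z = 0 := by linear_combination h
  simpa using this

/-- The traces of the nonempty words vanish. -/
theorem trace_word (h : Clif e a) {N N' K : Matrix κ κ ℂ} (hN : Ac e a N) (hN' : Ac e a N')
    (hK : Cm e a K) (hKN : K * N = N * K)
    (I : List ι) (hI : I ≠ []) (hn : I.Nodup) :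
    (K * (N * N' + N' * N) * wordp a I * e).trace = 0 := by
  have hX : Cm e a (K * (N * N' + N' * N)) := by
    have h1 := hN.mul hN'
    have h2 := hN'.mul hN
    refine hK.mul ⟨?_, ?_, fun k => ?_⟩
    · rw [mul_add, h1.l, h2.l]
    · rw [add_mul, h1.r, h2.r]
    · rw [add_mul, mul_add, h1.c, h2.c]
  have he : (K * (N * N' + N' * N) * wordp a I * e).trace =
      (K * (N * N' + N' * N) * wordp a I).trace := by
    rw [Matrix.trace_mul_comm, ← mul_assoc, hX.l]
  rw [he]
  rcases Nat.even_or_odd I.length with hI2 | hI2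
  · obtain ⟨k, I', rfl⟩ := List.exists_cons_of_ne_nil hI
    have hk : k ∉ I' := (List.nodup_cons.1 hn).1
    have hodd : Odd I'.length := by
      rw [List.length_cons] at hI2
      rcases Nat.even_or_odd I'.length with h1 | h1
      · exact absurd hI2 (Nat.not_even_iff_odd.2 h1.add_one)
      · exact h1
    have h2 : wordp a (k :: I') = a k * wordp a I' := by
      rw [wordp, List.map_cons, List.prod_cons]; rfl
    have h3 := word_comm h k I' hk
    rw [hodd.neg_one_pow, neg_one_smul] at h3
    apply self_neg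
    rw [h2]
    calc (K * (N * N' + N' * N) * (a k * wordp a I')).trace
        = (wordp a I' * (K * (N * N' + N' * N) * a k)).trace := by
          rw [← mul_assoc, Matrix.trace_mul_comm]
      _ = (wordp a I' * a k * (K * (N * N' + N' * N))).trace := by
          rw [hX.c, mul_assoc (wordp a I')]
      _ = -(a k * wordp a I' * (K * (N * N' + N' * N))).trace := by
          rw [h3, neg_mul, Matrix.trace_neg]
      _ = -(K * (N * N' + N' * N) * (a k * wordp a I')).trace := by
          rw [Matrix.trace_mul_comm]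
  · have h3 := word_anti hN I
    rw [hI2.neg_one_pow, neg_one_smul] at h3
    have h4 : (K * (N' * N) * wordp a I).trace = -(K * (N * N') * wordp a I).trace := by
      calc (K * (N' * N) * wordp a I).trace = (K * N' * (N * wordp a I)).trace := by
            simp only [mul_assoc]
        _ = -(K * N' * wordp a I * N).trace := by
            rw [h3, mul_neg, Matrix.trace_neg, ← mul_assoc]
        _ = -(N * (K * N' * wordp a I)).trace := by rw [Matrix.trace_mul_comm]
        _ = -(N * K * N' * wordp a I).trace := by simp only [mul_assoc]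
        _ = _ := by rw [← hKN]; simp only [mul_assoc]
    rw [mul_add, add_mul, Matrix.trace_add, h4, add_neg_cancel]

/-- **The averaging formula.** -/
theorem average (h : Clif e a) {N N' K : Matrix κ κ ℂ} (hN : Ac e a N) (hN' : Ac e a N')
    (hK : Cm e a K) (hKN : K * N = N * K) (l : List ι) (hl : ∀ k, k ∈ l)
    (hn : l.Nodup) :
    ∑ i, ∑ j, av e a l (Matrix.single j i 1) * (K * (N * N' + N' * N)) *
      av e a l (Matrix.single i j 1) =
      ((1 / 2 : ℂ) ^ l.length * (K * (N * N' + N' * N)).trace) • e := by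
  have hX : Cm e a (K * (N * N' + N' * N)) := by
    have h1 := hN.mul hN'
    have h2 := hN'.mul hN
    refine hK.mul ⟨?_, ?_, fun k => ?_⟩
    · rw [mul_add, h1.l, h2.l]
    · rw [add_mul, h1.r, h2.r]
    · rw [add_mul, mul_add, h1.c, h2.c]
  have h1 : ∀ i j : κ, av e a l (Matrix.single j i 1) * (K * (N * N' + N' * N)) *
      av e a l (Matrix.single i j 1) =
      av e a l (Matrix.single j i 1 * (K * (N * N' + N' * N)) *
        av e a l (Matrix.single i j 1)) := by
    intro i j
    rw [av_mul h l _ (av_cm h hl _), av_mul h l _ hX]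
  simp only [h1]
  simp only [← av_sum]
  have h2 := ct_eq (e := e) (a := a) l (K * (N * N' + N' * N))
    (fun I hI hIl => trace_word h hN hN' hK hKN I hI (hn.sublist hIl))
  rw [ct] at h2
  rw [h2, av_smul, av_smul, av_e h, smul_smul, hX.r]

theorem Clif.cm_e (h : Clif e a) : Cm e a e := ⟨h.ee, h.ee, fun k => by rw [h.ea, h.ae]⟩

/-- **All anticommuting elements are obtained from one and its transpose.** -/
theorem ac_span [Fintype ι] (h : Clif e a) {N N₂ : Matrix κ κ ℂ} (hN : Ac e a N)
    (hN₂ : Ac e a N₂) (ht : (N * N₂).trace ≠ 0) {N' : Matrix κ κ ℂ} (hN' : Ac e a N') :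
    N' ∈ Submodule.span ℂ {Y | ∃ P R, Cm e a P ∧ Cm e a R ∧ (Y = P * N * R ∨ Y = P * N₂ * R)} := by
  classical
  obtain ⟨l, hl⟩ : ∃ l : List ι, l = (Finset.univ : Finset ι).toList := ⟨_, rfl⟩
  have hl1 : ∀ k, k ∈ l := by intro k; rw [hl]; simp
  have hl2 : l.Nodup := by rw [hl]; exact Finset.nodup_toList _
  have h1 := average h hN hN₂ h.cm_e (by rw [hN.l, hN.r]) l hl1 hl2
  have h2 : (e * (N * N₂ + N₂ * N)).trace = 2 * (N * N₂).trace := by
    rw [mul_add, ← mul_assoc, ← mul_assoc, hN.l, hN₂.l, Matrix.trace_add,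
      Matrix.trace_mul_comm N₂ N]
    ring
  rw [h2] at h1
  obtain ⟨c, hc⟩ : ∃ c : ℂ, c = (1 / 2 : ℂ) ^ l.length * (2 * (N * N₂).trace) := ⟨_, rfl⟩
  have hc0 : c ≠ 0 := by
    rw [hc]
    exact mul_ne_zero (pow_ne_zero _ (by norm_num)) (mul_ne_zero (by norm_num) ht)
  rw [← hc] at h1
  have h3 : N' = c⁻¹ • (N' * (c • e)) := by
    rw [mul_smul_comm, hN'.r, smul_smul, inv_mul_cancel₀ hc0, one_smul]
  rw [h3, ← h1]
  refine Submodule.smul_mem _ _ ?_
  rw [Finset.mul_sum]
  refine Submodule.sum_mem _ fun i _ => ?_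
  rw [Finset.mul_sum]
  refine Submodule.sum_mem _ fun j _ => ?_
  have hA := av_cm h hl1 (Matrix.single j i (1 : ℂ))
  have hB := av_cm h hl1 (Matrix.single i j (1 : ℂ))
  have h4 : N' * (av e a l (Matrix.single j i 1) * (e * (N * N₂ + N₂ * N)) *
      av e a l (Matrix.single i j 1)) =
      (N' * av e a l (Matrix.single j i 1) * N) * N₂ * av e a l (Matrix.single i j 1) +
      (N' * av e a l (Matrix.single j i 1) * N₂) * N * av e a l (Matrix.single i j 1) := by
    have h5 : e * (N * N₂ + N₂ * N) = N * N₂ + N₂ * N := by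
      rw [mul_add, ← mul_assoc, ← mul_assoc, hN.l, hN₂.l]
    rw [h5, mul_add, add_mul, mul_add]
    simp only [mul_assoc]
  rw [h4]
  refine Submodule.add_mem _ (Submodule.subset_span ⟨_, _, ?_, hB, Or.inr rfl⟩)
    (Submodule.subset_span ⟨_, _, ?_, hB, Or.inl rfl⟩)
  · exact (hN'.mul_cm hA).mul hN
  · exact (hN'.mul_cm hA).mul hN₂

end

end Pool.Agent.L5helper24.KS
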