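import Pool.Agent.W544.PG.Defs4
import Pool.Agent.W655.PG.Desc

/-!
# The complex commutant of the conjugates of an operator is spanned by rational matrices

This is the argument of `Pool.Agent.W696.PG.de2` for an arbitrary matrix.
-/

set_option autoImplicit false

open Matrix Finset Module

namespace Pool.Agent.L5helper24.KS

open Pool.Agent.W544.PG

/-- the support of a matrix -/
noncomputable def sp {n : ℕ} (v : Matrix (Fin n) (Fin n) ℂ) : Finset (Fin n × Fin n) :=
  Finset.univ.filter (fun p : Fin n × Fin n => v p.1 p.2 ≠ 0)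

theorem mem_sp {n : ℕ} {v : Matrix (Fin n) (Fin n) ℂ} {p : Fin n × Fin n} :
    p ∈ sp v ↔ v p.1 p.2 ≠ 0 := by simp [sp]

theorem de2G {n : ℕ} (x : Matrix (Fin n) (Fin n) ℂ) (C : Matrix (Fin n) (Fin n) ℂ)
    (hCx : ∀ σ : ℂ ≃+* ℂ, C * x.map σ = x.map σ * C) :
    C ∈ Submodule.span ℂ
      {D | ∃ P : Matrix (Fin n) (Fin n) ℚ, D = mC P ∧ mC P * x = x * mC P} := by
  have hmap : ∀ w : Matrix (Fin n) (Fin n) ℂ, (∀ σ : ℂ ≃+* ℂ, w * x.map σ = x.map σ * w) →
      ∀ τ σ : ℂ ≃+* ℂ, w.map τ * x.map σ = x.map σ * w.map τ := by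
    intro w hw τ σ
    have h1 := hw (σ.trans τ.symm)
    have h2 : (x.map (σ.trans τ.symm)).map τ = x.map σ := by
      ext a b
      simp
    have h3 := congrArg (fun M : Matrix (Fin n) (Fin n) ℂ => M.map τ) h1
    simp only [Matrix.map_mul] at h3
    rw [h2] at h3
    exact h3
  have key : ∀ (k : ℕ) (C : Matrix (Fin n) (Fin n) ℂ),
      (∀ σ : ℂ ≃+* ℂ, C * x.map σ = x.map σ * C) → (sp C).card = k →
      C ∈ Submodule.span ℂ
        {D | ∃ P : Matrix (Fin n) (Fin n) ℚ, D = mC P ∧ mC P * x = x * mC P} := by
    intro k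
    induction k using Nat.strong_induction_on with
    | _ k ih =>
      intro C hC hk
      by_cases hC0 : C = 0
      · rw [hC0]; exact Submodule.zero_mem _
      -- an element of minimal support
      have hex : ∃ m, ∃ w : Matrix (Fin n) (Fin n) ℂ,
          (∀ σ : ℂ ≃+* ℂ, w * x.map σ = x.map σ * w) ∧ w ≠ 0 ∧ sp w ⊆ sp C ∧
          (sp w).card = m := ⟨_, C, hC, hC0, subset_rfl, rfl⟩
      classical
      obtain ⟨v, hv, hv0, hvC, hvm⟩ := Nat.find_spec hex
      have hmin : ∀ u : Matrix (Fin n) (Fin n) ℂ,
          (∀ σ : ℂ ≃+* ℂ, u * x.map σ = x.map σ * u) → sp u ⊆ sp C →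
          (sp u).card < (sp v).card → u = 0 := by
        intro u hu huC hlt
        by_contra hu0
        rw [hvm] at hlt
        exact Nat.find_min hex hlt ⟨u, hu, hu0, huC, rfl⟩
      have hex2 : ∃ i j, v i j ≠ 0 := by
        by_contra hcon
        push Not at hcon
        exact hv0 (by ext i j; exact hcon i j)
      obtain ⟨i, j, hij⟩ := hex2
      set w : Matrix (Fin n) (Fin n) ℂ := (v i j)⁻¹ • v with hw
      have hwv : ∀ σ : ℂ ≃+* ℂ, w * x.map σ = x.map σ * w := by
        intro σ
        rw [hw, smul_mul_assoc, mul_smul_comm, hv σ]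
      have hwij : w i j = 1 := by simp [hw, hij]
      have hspw : sp w = sp v := by
        ext p
        rw [mem_sp, mem_sp]
        simp [hw, hij]
      have hfix : ∀ τ : ℂ ≃+* ℂ, w.map τ = w := by
        intro τ
        have hsub : sp (w.map τ - w) ⊆ sp v := by
          intro p hp
          rw [mem_sp] at hp
          rw [← hspw, mem_sp]
          intro h0
          apply hp
          simp [h0]
        have hu := hmin (w.map τ - w) ?_ (hsub.trans hvC) ?_
        · exact sub_eq_zero.1 hu
        · intro σ
          rw [sub_mul, mul_sub, hmap w hwv τ σ, hwv]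
        · apply Finset.card_lt_card
          rw [Finset.ssubset_iff_of_subset hsub]
          refine ⟨(i, j), mem_sp.2 hij, ?_⟩
          rw [mem_sp]
          simp [hwij]
      have hrat : ∀ a b, ∃ q : ℚ, (q : ℂ) = w a b := by
        intro a b
        refine Pool.Agent.W655.PG.rat_of_fixed fun τ => ?_
        have := congrFun (congrFun (hfix τ) a) b
        simpa using this
      choose P hP using hrat
      have hwP : mC (Matrix.of P) = w := by
        ext a b
        exact hP a b
      have hcomm : mC (Matrix.of P) * x = x * mC (Matrix.of P) := by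
        have h1 := hwv (RingEquiv.refl ℂ)
        have h2 : x.map (RingEquiv.refl ℂ) = x := by
          ext a b; simp
        rw [h2] at h1
        rw [hwP]
        exact h1
      have hwS : w ∈ Submodule.span ℂ
          {D | ∃ P : Matrix (Fin n) (Fin n) ℚ, D = mC P ∧ mC P * x = x * mC P} :=
        Submodule.subset_span ⟨Matrix.of P, hwP.symm, hcomm⟩
      have hsub2 : sp (C - C i j • w) ⊆ sp C := by
        intro p hp
        rw [mem_sp] at hp ⊢
        intro h0
        apply hp
        have h1 : w p.1 p.2 = 0 := by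
          by_contra h2
          have h3 : p ∈ sp v := by rw [← hspw]; exact mem_sp.2 h2
          exact mem_sp.1 (hvC h3) h0
        simp [h0, h1]
      have hrec := ih (sp (C - C i j • w)).card ?_ (C - C i j • w) ?_ rfl
      · have := Submodule.add_mem _ hrec (Submodule.smul_mem _ (C i j) hwS)
        rwa [sub_add_cancel] at this
      · rw [← hk]
        apply Finset.card_lt_card
        rw [Finset.ssubset_iff_of_subset hsub2]
        refine ⟨(i, j), hvC (mem_sp.2 hij), ?_⟩
        rw [mem_sp]
        simp [hwij]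
      · intro σ
        rw [sub_mul, mul_sub, hC, smul_mul_assoc, mul_smul_comm, hwv]
  exact key _ C hCx rfl

/-- rational vectors in the complex span of rational vectors are in the rational span -/
theorem rat_span {ι : Type} [Finite ι] {S : Set (ι → ℚ)} {v : ι → ℚ}
    (h : (fun i => (v i : ℂ)) ∈ Submodule.span ℂ ((fun (u : ι → ℚ) (i : ι) => (u i : ℂ)) '' S)) :
    v ∈ Submodule.span ℚ S := by
  classical
  have := Fintype.ofFinite ι
  by_contra hv
  obtain ⟨f, hf, hf'⟩ := Submodule.exists_le_ker_of_notMem hv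
  obtain ⟨c, hc⟩ : ∃ c : ι → ℚ, ∀ u, f u = ∑ i, c i * u i := by
    refine ⟨fun i => f (Pi.single i 1), fun u => ?_⟩
    conv_lhs => rw [← Finset.univ_sum_single u]
    rw [map_sum]
    refine Finset.sum_congr rfl fun i _ => ?_
    have : (Pi.single i (u i) : ι → ℚ) = u i • Pi.single i 1 := by
      rw [← Pi.single_smul, smul_eq_mul, mul_one]
    rw [this, map_smul, smul_eq_mul, mul_comm]
  have h1 : ∀ x ∈ Submodule.span ℂ ((fun (u : ι → ℚ) (i : ι) => (u i : ℂ)) '' S),
      ∑ i, (c i : ℂ) * x i = 0 := by
    intro x hx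
    induction hx using Submodule.span_induction with
    | mem x hx =>
      obtain ⟨u, hu, rfl⟩ := hx
      have h2 : f u = 0 := hf' (Submodule.subset_span hu)
      rw [hc] at h2
      have h3 := congrArg (fun z : ℚ => (z : ℂ)) h2
      push_cast at h3
      exact h3
    | zero => simp
    | add x y _ _ hx hy =>
      simp only [Pi.add_apply, mul_add, Finset.sum_add_distrib, hx, hy, add_zero]
    | smul a x _ hx =>
      simp only [Pi.smul_apply, smul_eq_mul]
      have : ∀ i, (c i : ℂ) * (a * x i) = a * ((c i : ℂ) * x i) := fun i => by ring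
      simp only [this, ← Finset.mul_sum, hx, mul_zero]
  have h4 := h1 _ h
  apply hf
  rw [hc]
  have h5 : ((∑ i, c i * v i : ℚ) : ℂ) = 0 := by push_cast; exact h4
  exact_mod_cast h5

end Pool.Agent.L5helper24.KS
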