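import Pool.Agent.L5helper24.KS.Hw
import Pool.Agent.L5helper24.KS.De2

/-!
# All Kuga-Satake classes are obtained from one
-/

set_option autoImplicit false
set_option linter.unusedSectionVars false

open Matrix Finset Module

namespace Pool.Agent.L5helper24.KS

open Pool.Agent Pool.Agent.W544.PG

noncomputable section

variable {n w : ℕ}

/-- the data of a Hodge structure of K3 type and a Hodge structure of level one -/
structure Setup (T : HS n) (W : HW w) where
  M : Matrix (Fin w) (Fin w) ℂ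
  M' : Matrix (Fin w) (Fin w) ℂ
  o : Fin n → ℂ
  v : Fin (n - 2) → Fin n → ℂ
  R : Matrix (Fin w) (Fin w) ℂ
  y' : Matrix (Fin w) (Fin w) ℂ
  E : Fin (n - 2) → Matrix (Fin w) (Fin w) ℂ
  F : Fin (n - 2) → Matrix (Fin w) (Fin w) ℂ
  s : ℂ
  hq : 0 < n - 2
  left : M * M' = 1
  right : M' * M = 1
  hS : Mᴴ * M = SS W
  hL : Lalg (LL T W) M M' (mC T.Q)
  fr : Fr (mC T.Q) T.x o (star o) v
  img : Img (LL T W) (mC T.Q) T.x o (star o) v W.y R y' E F
  hs : s * s = 2

theorem star_eq (W : HW w) {M M' V : Matrix (Fin w) (Fin w) ℂ} (left : M * M' = 1)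
    (right : M' * M = 1) (hS : Mᴴ * M = SS W) (hV : Vᵀ * mC W.E + mC W.E * V = 0) :
    M' * (M * V * M')ᴴ * M = cc W * V.map (starRingEnd ℂ) * cc W := by
  have h1 : Vᴴ * mC W.E = -(mC W.E * V.map (starRingEnd ℂ)) := by
    have h2 := congrArg (fun A : Matrix (Fin w) (Fin w) ℂ => A.map (starRingEnd ℂ)) hV
    simp only [Matrix.map_add _ (map_add _), Matrix.map_mul, mC_conj] at h2
    have h3 : (Vᵀ).map (starRingEnd ℂ) = Vᴴ := rfl
    rw [h3] at h2
    have h4 : (0 : Matrix (Fin w) (Fin w) ℂ).map (starRingEnd ℂ) = 0 := by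
      ext i j; simp
    rw [h4] at h2
    exact eq_neg_of_add_eq_zero_left h2
  have h5 : M'ᴴ * Mᴴ = 1 := by rw [← Matrix.conjTranspose_mul, left, Matrix.conjTranspose_one]
  have h6 : Mᴴ * M'ᴴ = 1 := by rw [← Matrix.conjTranspose_mul, right, Matrix.conjTranspose_one]
  have h7 : SS W * (M' * M'ᴴ) = 1 := by
    rw [← hS]
    calc Mᴴ * M * (M' * M'ᴴ) = Mᴴ * (M * M') * M'ᴴ := by simp only [mul_assoc]
      _ = 1 := by rw [left, mul_one, h6]
  have h8 : (M' * M'ᴴ) * SS W = 1 := mul_eq_one_comm.1 h7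
  rw [Matrix.conjTranspose_mul, Matrix.conjTranspose_mul]
  calc M' * (M'ᴴ * (Vᴴ * Mᴴ)) * M = M' * M'ᴴ * (Vᴴ * (Mᴴ * M)) := by simp only [mul_assoc]
    _ = M' * M'ᴴ * (Vᴴ * mC W.E * cc W) := by rw [hS, SS]; simp only [mul_assoc]
    _ = M' * M'ᴴ * (-(mC W.E * V.map (starRingEnd ℂ)) * cc W) := by rw [h1]
    _ = M' * M'ᴴ * (SS W * (cc W * V.map (starRingEnd ℂ) * cc W)) := by
        have h9 : SS W * (cc W * V.map (starRingEnd ℂ) * cc W) =
            mC W.E * (cc W * cc W) * (V.map (starRingEnd ℂ) * cc W) := by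
          rw [SS]; simp only [mul_assoc]
        rw [h9, cc_sq, mul_neg_one, neg_mul, neg_mul]
        simp only [mul_assoc]
    _ = cc W * V.map (starRingEnd ℂ) * cc W := by rw [← mul_assoc, h8, one_mul]

theorem lalg (T : HS n) (W : HW w) (hsc : T.Scalar) (hx : (T.x * T.x).trace = 2) (hn : 3 ≤ n)
    {M M' : Matrix (Fin w) (Fin w) ℂ} (left : M * M' = 1)
    (right : M' * M = 1) (hS : Mᴴ * M = SS W) : Lalg (LL T W) M M' (mC T.Q) where
  lie P hP P' hP' := LL_br hP hP'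
  adj := by
    refine ⟨left, right, fun V hV => ?_⟩
    have h1 := LL_star hV
    have h2 : (0 : Matrix (Fin n) (Fin n) ℂ).map (starRingEnd ℂ) = 0 := by
      ext i j; simp
    rw [h2, mul_zero, zero_mul, neg_zero] at h1
    rw [star_eq W left right hS (LL_skewW hV)]
    convert h1 using 2
    rw [cc]
    simp only [neg_smul, smul_mul_assoc, neg_mul, neg_neg]
  skew P hP := LL_skew hP
  surj Z hZ := LL_surj hsc hx hn hZ

/-- existence of the data -/
theorem exists_setup (T : HS n) (W : HW w) (hsc : T.Scalar) (hx : (T.x * T.x).trace = 2)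
    (hn : 3 ≤ n) : Nonempty (Setup T W) := by
  obtain ⟨M, M', left, right, hS⟩ := exists_M W
  obtain ⟨o, v, hfr⟩ := exists_fr T hx (by omega)
  have hL := lalg T W hsc hx hn left right hS
  obtain ⟨R, y', E, F, himg⟩ := hL.exists_img hfr W.sq LL_self
  obtain ⟨s, hs⟩ := IsAlgClosed.exists_pow_nat_eq (2 : ℂ) (n := 2) (by norm_num)
  exact ⟨⟨M, M', o, v, R, y', E, F, s, by omega, left, right, hS, hL, hfr, himg,
    by rw [← hs]; ring⟩⟩

/-- the linear map given by a class -/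
def Jl (j : Fin n → Matrix (Fin w) (Fin w) ℚ) :
    (Fin n → ℂ) →ₗ[ℂ] Matrix (Fin w) (Fin w) ℂ where
  toFun u := ∑ a, u a • mC (j a)
  map_add' u u' := by simp only [Pi.add_apply, add_smul, Finset.sum_add_distrib]
  map_smul' z u := by
    simp only [Pi.smul_apply, smul_eq_mul, mul_smul, Finset.smul_sum, RingHom.id_apply]

theorem Jl_single (j : Fin n → Matrix (Fin w) (Fin w) ℚ) (a : Fin n) :
    Jl j (Pi.single a 1) = mC (j a) := by
  change ∑ b, (Pi.single a 1 : Fin n → ℂ) b • mC (j b) = _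
  rw [Finset.sum_eq_single a]
  · rw [Pi.single_eq_same, one_smul]
  · intro b _ hb
    rw [Pi.single_eq_of_ne hb, zero_smul]
  · simp

variable {T : HS n} {W : HW w}

theorem Jl_eqv {j : Fin n → Matrix (Fin w) (Fin w) ℚ} (hj : IsHodgeMap T W j) :
    Eqv (LL T W) (Jl j) := by
  refine ⟨fun Z V h u => ?_⟩
  have h1 := LL_cls hj h
  change ∑ b, (Z *ᵥ u) b • mC (j b) + Vᵀ * ∑ a, u a • mC (j a) + (∑ a, u a • mC (j a)) * V = 0
  have h2 : ∑ b, (Z *ᵥ u) b • mC (j b) = ∑ a, u a • ∑ b, Z b a • mC (j b) := by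
    simp only [Matrix.mulVec, dotProduct, Finset.sum_smul, Finset.smul_sum, smul_smul]
    rw [Finset.sum_comm]
    refine Finset.sum_congr rfl fun a _ => Finset.sum_congr rfl fun b _ => ?_
    rw [mul_comm]
  rw [h2, Finset.mul_sum, Finset.sum_mul, ← Finset.sum_add_distrib, ← Finset.sum_add_distrib]
  refine Finset.sum_eq_zero fun a _ => ?_
  rw [mul_smul_comm, smul_mul_assoc, ← smul_add, ← smul_add, h1 a, smul_zero]

/-- the transpose of an equivariant map -/
theorem Eqv.trans {κ : Type} [Fintype κ] [DecidableEq κ]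
    {L : Submodule ℂ (Matrix (Fin n) (Fin n) ℂ × Matrix κ κ ℂ)}
    {J : (Fin n → ℂ) →ₗ[ℂ] Matrix κ κ ℂ} (hJ : Eqv L J) :
    Eqv L ((Matrix.transposeLinearEquiv κ κ ℂ ℂ).toLinearMap ∘ₗ J) := by
  refine ⟨fun Z V h u => ?_⟩
  have h1 := congrArg Matrix.transpose (hJ.eq Z V h u)
  rw [Matrix.transpose_add, Matrix.transpose_add, Matrix.transpose_mul, Matrix.transpose_mul,
    Matrix.transpose_transpose, Matrix.transpose_zero] at h1
  change (J (Z *ᵥ u))ᵀ + Vᵀ * (J u)ᵀ + (J u)ᵀ * V = 0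
  rw [← h1]
  abel

namespace Setup

variable (U : Setup T W)

/-- the inverse of the Riemann form -/
def Ei : Matrix (Fin w) (Fin w) ℂ := cc W * (U.M' * U.M'ᴴ)

theorem SS_inv : SS W * (U.M' * U.M'ᴴ) = 1 := by
  have h6 : U.Mᴴ * U.M'ᴴ = 1 := by
    rw [← Matrix.conjTranspose_mul, U.right, Matrix.conjTranspose_one]
  rw [← U.hS]
  calc U.Mᴴ * U.M * (U.M' * U.M'ᴴ) = U.Mᴴ * (U.M * U.M') * U.M'ᴴ := by simp only [mul_assoc]
    _ = 1 := by rw [U.left, mul_one, h6]

theorem E_Ei : mC W.E * U.Ei = 1 := by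
  rw [Ei, ← mul_assoc]
  exact U.SS_inv

theorem Ei_E : U.Ei * mC W.E = 1 := mul_eq_one_comm.1 U.E_Ei

theorem Ei_T : U.Eiᵀ = -U.Ei := by
  have h1 := congrArg Matrix.transpose U.E_Ei
  rw [Matrix.transpose_mul, mCE_T, Matrix.transpose_one, mul_neg] at h1
  calc U.Eiᵀ = U.Eiᵀ * (mC W.E * U.Ei) := by rw [U.E_Ei, mul_one]
    _ = -(-(U.Eiᵀ * mC W.E)) * U.Ei := by rw [neg_neg, mul_assoc]
    _ = -U.Ei := by rw [h1, neg_one_mul]

/-- skewness of elements of the Lie algebra -/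
theorem Ei_skew {V : Matrix (Fin w) (Fin w) ℂ} (hV : Vᵀ * mC W.E + mC W.E * V = 0) :
    U.Ei * Vᵀ = -(V * U.Ei) := by
  have h1 := eq_neg_of_add_eq_zero_left hV
  calc U.Ei * Vᵀ = U.Ei * (Vᵀ * mC W.E) * U.Ei := by
        rw [mul_assoc, mul_assoc, U.E_Ei, mul_one]
    _ = -(U.Ei * mC W.E * V * U.Ei) := by
        rw [h1, mul_neg, neg_mul]; simp only [mul_assoc]
    _ = _ := by rw [U.Ei_E, one_mul]

theorem skew_gen (k : Option (Fin (n - 2))) :
    (gen U.s U.R U.E U.F k)ᵀ * mC W.E + mC W.E * gen U.s U.R U.E U.F k = 0 := by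
  cases k with
  | none =>
    have := LL_skewW U.img.mR.1
    rw [gen, Matrix.transpose_smul, smul_mul_assoc, mul_smul_comm, ← smul_add, this, smul_zero]
  | some i =>
    have h1 := LL_skewW (U.img.mE i).1
    have h2 := LL_skewW (U.img.mF i).1
    rw [gen, Matrix.transpose_smul, smul_mul_assoc, mul_smul_comm, ← smul_add,
      Matrix.transpose_add, add_mul, mul_add, add_add_add_comm, h1, h2, add_zero, smul_zero]

theorem Ei_gen (k : Option (Fin (n - 2))) :
    U.Ei * (gen U.s U.R U.E U.F k)ᵀ = -(gen U.s U.R U.E U.F k * U.Ei) :=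
  U.Ei_skew (U.skew_gen k)

theorem Ei_proj : U.Ei * (proj U.R)ᵀ = proj U.R * U.Ei := by
  have hc := U.img.clif U.hq U.hs
  rw [← hc.sq none, Matrix.transpose_mul, ← mul_assoc, U.Ei_gen, neg_mul, mul_assoc, U.Ei_gen,
    mul_neg, neg_neg, mul_assoc]

theorem proj_E : (proj U.R)ᵀ * mC W.E = mC W.E * proj U.R := by
  calc (proj U.R)ᵀ * mC W.E = mC W.E * (U.Ei * (proj U.R)ᵀ) * mC W.E := by
        rw [← mul_assoc, U.E_Ei, one_mul]
    _ = mC W.E * proj U.R * (U.Ei * mC W.E) := by rw [U.Ei_proj]; simp only [mul_assoc]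
    _ = _ := by rw [U.Ei_E, mul_one]

/-- the element of a class -/
theorem ac_of {J : (Fin n → ℂ) →ₗ[ℂ] Matrix (Fin w) (Fin w) ℂ} (hJ : Eqv (LL T W) J) :
    Ac (proj U.R) (gen U.s U.R U.E U.F) (U.Ei * J (U.o - star U.o)) := by
  obtain ⟨h1, h2, h3, -, -⟩ := U.img.class_rel U.fr U.hq U.hs hJ
  refine ⟨?_, ?_, fun k => ?_⟩
  · rw [← mul_assoc, ← U.Ei_proj, mul_assoc, h1]
  · rw [mul_assoc, h2]
  · rw [← mul_assoc, mul_assoc, ← h3 k, ← mul_assoc, U.Ei_gen, neg_mul]

theorem y_class {J : (Fin n → ℂ) →ₗ[ℂ] Matrix (Fin w) (Fin w) ℂ} (hJ : Eqv (LL T W) J) :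
    (cc W)ᵀ * J (U.o - star U.o) = J (U.o - star U.o) * cc W := by
  have hne : Nonempty (Fin (n - 2)) := ⟨⟨0, U.hq⟩⟩
  obtain ⟨h1, h2, h3, -, -⟩ := U.img.class_rel U.fr U.hq U.hs hJ
  obtain ⟨m, hm⟩ : ∃ m, m = J (U.o - star U.o) := ⟨_, rfl⟩
  rw [← hm] at h1 h2 h3 ⊢
  have h4 : U.y'ᵀ * m = 0 := by
    rw [← h1, ← mul_assoc, ← Matrix.transpose_mul, U.img.rel.py', Matrix.transpose_zero, zero_mul]
  have h5 : m * U.y' = 0 := by rw [← h2, mul_assoc, U.img.rel.py', mul_zero]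
  have h6 : U.Rᵀ * m = m * U.R := by
    have h7 := h3 none
    rw [gen, Matrix.transpose_smul, smul_mul_assoc, mul_smul_comm] at h7
    have h8 := congrArg (fun A => (1 / 2 : ℂ) • A) h7
    simp only [smul_smul] at h8
    norm_num at h8
    exact h8
  rw [cc, Matrix.transpose_smul, smul_mul_assoc, mul_smul_comm, U.img.rel.dec,
    Matrix.transpose_add, add_mul, mul_add, h4, h5, h6]

/-- **positivity** -/
theorem trace_ne {j : Fin n → Matrix (Fin w) (Fin w) ℚ} (hj : IsHodgeMap T W j)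
    (hj0 : Jl j (U.o - star U.o) ≠ 0) :
    (U.Ei * Jl j (U.o - star U.o) * (U.Ei * (Jl j (U.o - star U.o))ᵀ)).trace ≠ 0 := by
  have hy := U.y_class (Jl_eqv hj)
  obtain ⟨m, hm⟩ : ∃ m, m = Jl j (U.o - star U.o) := ⟨_, rfl⟩
  have hH : mᴴ = -mᵀ := by
    have h1 : m.map (starRingEnd ℂ) = -m := by
      have h2 : ∀ u : Fin n → ℂ, (Jl j u).map (starRingEnd ℂ) = Jl j (star u) := by
        intro u
        ext a b
        simp only [Jl, LinearMap.coe_mk, AddHom.coe_mk, Matrix.map_apply, Matrix.sum_apply,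
          Matrix.smul_apply, smul_eq_mul, map_sum, map_mul, Pi.star_apply]
        refine Finset.sum_congr rfl fun c _ => ?_
        simp [mC]
      rw [hm, h2, ← map_neg]
      congr 1
      rw [star_sub, star_star, neg_sub]
    rw [Matrix.conjTranspose, ← Matrix.transpose_neg]
    have h3 : (mᵀ).map star = (m.map (starRingEnd ℂ))ᵀ := rfl
    rw [h3, h1]
  rw [← hm] at hy hj0 ⊢
  intro h0
  apply hj0
  obtain ⟨Si, hSi⟩ : ∃ Si, Si = U.M' * U.M'ᴴ := ⟨_, rfl⟩
  have e1 : SS W * Si = 1 := by rw [hSi]; exact U.SS_inv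
  have e2 : Si * SS W = 1 := mul_eq_one_comm.1 e1
  have e3 : (cc W)ᵀ * SS W = -(SS W * cc W) := by
    rw [SS, ← mul_assoc, cc_skew, neg_mul]
  have e4 : Si * (cc W)ᵀ = -(cc W * Si) := by
    calc Si * (cc W)ᵀ = Si * ((cc W)ᵀ * SS W) * Si := by
          rw [mul_assoc, mul_assoc, e1, mul_one]
      _ = -((Si * SS W) * cc W * Si) := by rw [e3, mul_neg, neg_mul]; simp only [mul_assoc]
      _ = _ := by rw [e2, one_mul]
  have e5 : cc W * Si * (cc W)ᵀ = Si := by
    rw [mul_assoc, e4, mul_neg, ← mul_assoc, cc_sq, neg_one_mul, neg_neg]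
  have h1 : (Si * m * (Si * mᵀ)).trace = 0 := by
    rw [← h0, Ei, ← hSi]
    calc (Si * m * (Si * mᵀ)).trace = (cc W * Si * ((cc W)ᵀ * m) * (Si * mᵀ)).trace := by
          rw [← mul_assoc (cc W * Si), e5]
      _ = _ := by rw [hy]; simp only [mul_assoc]
  have h2 : ((U.M'ᴴ * m * U.M') * (U.M'ᴴ * m * U.M')ᴴ).trace = 0 := by
    rw [Matrix.conjTranspose_mul, Matrix.conjTranspose_mul, Matrix.conjTranspose_conjTranspose,
      hH]
    calc (U.M'ᴴ * m * U.M' * (U.M'ᴴ * (-mᵀ * U.M'))).trace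
        = (U.M' * (U.M'ᴴ * m * U.M' * (U.M'ᴴ * -mᵀ))).trace := by
          rw [← mul_assoc (U.M'ᴴ) (-mᵀ), ← mul_assoc (U.M'ᴴ * m * U.M'), Matrix.trace_mul_comm]
      _ = -(Si * m * (Si * mᵀ)).trace := by
          rw [hSi, mul_neg, mul_neg, mul_neg, Matrix.trace_neg]; simp only [mul_assoc]
      _ = 0 := by rw [h1, neg_zero]
  have h3 : U.M'ᴴ * m * U.M' = 0 := by
    open scoped ComplexOrder in
    exact Matrix.trace_mul_conjTranspose_self_eq_zero_iff.1 h2
  have h6 : U.Mᴴ * U.M'ᴴ = 1 := by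
    rw [← Matrix.conjTranspose_mul, U.right, Matrix.conjTranspose_one]
  calc m = (U.Mᴴ * U.M'ᴴ) * m * (U.M' * U.M) := by rw [h6, U.right, one_mul, mul_one]
    _ = U.Mᴴ * (U.M'ᴴ * m * U.M') * U.M := by simp only [mul_assoc]
    _ = 0 := by rw [h3, mul_zero, zero_mul]

/-- the commutant consists of complex combinations of rational Hodge endomorphisms -/
theorem cm_span {P : Matrix (Fin w) (Fin w) ℂ}
    (hP : Cm (proj U.R) (gen U.s U.R U.E U.F) P) : P ∈ Submodule.span ℂ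
      {D | ∃ P : Matrix (Fin w) (Fin w) ℚ, D = mC P ∧ mC P * W.y = W.y * mC P} := by
  apply de2G
  intro σ
  have hQ : (mC T.Q).map σ = mC T.Q := by
    ext i j; simp [mC]
  have hsq : (4 : ℂ) • (W.y.map σ * W.y.map σ) = 1 := by
    have h1 := congrArg (fun A : Matrix (Fin w) (Fin w) ℂ => A.map σ) W.sq
    rw [← Matrix.map_mul]
    ext a b
    have h2 := congrFun (congrFun h1 a) b
    simp only [Matrix.map_apply, Matrix.smul_apply, smul_eq_mul, map_mul] at h2 ⊢
    have h3 : σ 4 = 4 := map_ofNat σ 4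
    rw [h3] at h2
    rw [h2, Matrix.one_apply]
    split_ifs <;> simp
  exact U.img.comm_y hsq (LL_conj σ) U.hL U.fr (U.fr.map σ hQ) U.hq U.hs hP.c hP.l hP.r

/-- the transposed element of the commutant -/
theorem cm_adj {P : Matrix (Fin w) (Fin w) ℂ}
    (hP : Cm (proj U.R) (gen U.s U.R U.E U.F) P) :
    ∃ P', Cm (proj U.R) (gen U.s U.R U.E U.F) P' ∧ P'ᵀ = mC W.E * P * U.Ei := by
  refine ⟨U.Ei * Pᵀ * mC W.E, ⟨?_, ?_, fun k => ?_⟩, ?_⟩
  · rw [← mul_assoc, ← mul_assoc, ← U.Ei_proj, mul_assoc U.Ei, ← Matrix.transpose_mul, hP.r]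
  · rw [mul_assoc (U.Ei * Pᵀ), ← U.proj_E, ← mul_assoc, mul_assoc U.Ei, ← Matrix.transpose_mul,
      hP.l]
  · have h1 := eq_neg_of_add_eq_zero_left (U.skew_gen k)
    have h2 : mC W.E * gen U.s U.R U.E U.F k = -((gen U.s U.R U.E U.F k)ᵀ * mC W.E) := by
      rw [h1, neg_neg]
    rw [mul_assoc, h2, mul_neg, ← mul_assoc, mul_assoc U.Ei, ← Matrix.transpose_mul, ← hP.c,
      Matrix.transpose_mul, ← mul_assoc, U.Ei_gen, neg_mul, neg_mul, neg_neg]
    simp only [mul_assoc]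
  · rw [Matrix.transpose_mul, Matrix.transpose_mul, Matrix.transpose_transpose, mCE_T, U.Ei_T,
      neg_mul, mul_neg, mul_neg, neg_neg, mul_assoc]

end Setup

/-- the maps obtained from `j` by composing with endomorphisms -/
def genSet (W : HW w) (j : Fin n → Matrix (Fin w) (Fin w) ℚ) :
    Set (Fin n → Matrix (Fin w) (Fin w) ℚ) :=
  {μ | ∃ P R : Matrix (Fin w) (Fin w) ℚ, mC P * W.y = W.y * mC P ∧ mC R * W.y = W.y * mC R ∧
    (μ = (fun a => Pᵀ * j a * R) ∨ μ = fun a => Pᵀ * (j a)ᵀ * R)}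

theorem mC_mul {m : ℕ} (A B : Matrix (Fin m) (Fin m) ℚ) : mC (A * B) = mC A * mC B := by
  ext a b
  simp [mC, Matrix.mul_apply]

theorem mC_transpose {m : ℕ} (A : Matrix (Fin m) (Fin m) ℚ) : mC Aᵀ = (mC A)ᵀ := rfl

/-- descent of a relation of linear dependence to the rational numbers -/
theorem rat_span_fam {S : Set (Fin n → Matrix (Fin w) (Fin w) ℚ)}
    {κ : Fin n → Matrix (Fin w) (Fin w) ℚ}
    (h : (fun a => mC (κ a)) ∈ Submodule.span ℂ
      ((fun (μ : Fin n → Matrix (Fin w) (Fin w) ℚ) (a : Fin n) => mC (μ a)) '' S)) :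
    κ ∈ Submodule.span ℚ S := by
  let e : (Fin n → Matrix (Fin w) (Fin w) ℚ) →ₗ[ℚ] (Fin n × Fin w × Fin w → ℚ) :=
    { toFun := fun μ p => μ p.1 p.2.1 p.2.2
      map_add' := fun _ _ => rfl
      map_smul' := fun _ _ => rfl }
  let eC : (Fin n → Matrix (Fin w) (Fin w) ℂ) →ₗ[ℂ] (Fin n × Fin w × Fin w → ℂ) :=
    { toFun := fun μ p => μ p.1 p.2.1 p.2.2
      map_add' := fun _ _ => rfl
      map_smul' := fun _ _ => rfl }
  have h1 : e κ ∈ Submodule.span ℚ (e '' S) := by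
    apply rat_span
    have h2 := Submodule.mem_map_of_mem (f := eC) h
    rw [Submodule.map_span, ← Set.image_comp] at h2
    rw [← Set.image_comp]
    exact h2
  rw [← Submodule.map_span] at h1
  obtain ⟨x, hx, hxe⟩ := h1
  have : x = κ := by
    funext a
    ext b c
    exact congrFun hxe (a, b, c)
  rw [← this]
  exact hx

/-- **All classes are obtained from one nonzero class.** -/
theorem span_classes (T : HS n) (W : HW w) (hsc : T.Scalar) (hx : (T.x * T.x).trace = 2)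
    (hn : 3 ≤ n) {j κ : Fin n → Matrix (Fin w) (Fin w) ℚ} (hj : IsHodgeMap T W j)
    (hj0 : j ≠ 0) (hκ : IsHodgeMap T W κ) : κ ∈ Submodule.span ℚ (genSet W j) := by
  obtain ⟨U⟩ := exists_setup T W hsc hx hn
  have hJ := Jl_eqv hj
  have hJ' := Jl_eqv hκ
  obtain ⟨m, hm⟩ : ∃ m, m = Jl j (U.o - star U.o) := ⟨_, rfl⟩
  obtain ⟨m', hm'⟩ : ∃ m', m' = Jl κ (U.o - star U.o) := ⟨_, rfl⟩
  have hm0 : m ≠ 0 := by
    intro h0
    apply hj0
    funext a
    have h1 := U.img.J_eq U.fr U.hq U.hs hJ (Pi.single a 1)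
    rw [← hm, h0, zero_mul, Jl_single] at h1
    ext b c
    have h2 := congrFun (congrFun h1 b) c
    simpa [mC] using h2
  have hN := U.ac_of hJ
  have hN₂ := U.ac_of hJ.trans
  have hN' := U.ac_of hJ'
  have htr := U.trace_ne hj (by rw [← hm]; exact hm0)
  have hc := U.img.clif U.hq U.hs
  change Ac _ _ (U.Ei * (Jl j (U.o - star U.o))ᵀ) at hN₂
  rw [← hm] at hN hN₂ htr
  rw [← hm'] at hN'
  have h1 := ac_span hc hN hN₂ htr hN'
  -- the values of the classes
  have hval : ∀ a, mC (j a) = m * dd (mC T.Q) U.o (star U.o) U.v U.s U.R U.E U.F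
      (Pi.single a 1) := by
    intro a
    rw [hm, ← U.img.J_eq U.fr U.hq U.hs hJ, Jl_single]
  have hvalt : ∀ a, (mC (j a))ᵀ = mᵀ * dd (mC T.Q) U.o (star U.o) U.v U.s U.R U.E U.F
      (Pi.single a 1) := by
    intro a
    have h2 := U.img.J_eq U.fr U.hq U.hs hJ.trans (Pi.single a 1)
    change (Jl j (Pi.single a 1))ᵀ = (Jl j (U.o - star U.o))ᵀ * _ at h2
    rw [Jl_single, ← hm] at h2
    exact h2
  have hval' : ∀ a, mC (κ a) = m' * dd (mC T.Q) U.o (star U.o) U.v U.s U.R U.E U.F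
      (Pi.single a 1) := by
    intro a
    rw [hm', ← U.img.J_eq U.fr U.hq U.hs hJ', Jl_single]
  -- the complex span
  obtain ⟨S, hS⟩ : ∃ S : Submodule ℂ (Fin n → Matrix (Fin w) (Fin w) ℂ),
      S = Submodule.span ℂ ((fun (μ : Fin n → Matrix (Fin w) (Fin w) ℚ) (a : Fin n) =>
        mC (μ a)) '' genSet W j) := ⟨_, rfl⟩
  have hbil : ∀ P ∈ Submodule.span ℂ
      {D | ∃ P : Matrix (Fin w) (Fin w) ℚ, D = mC P ∧ mC P * W.y = W.y * mC P},
      ∀ R ∈ Submodule.span ℂ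
      {D | ∃ P : Matrix (Fin w) (Fin w) ℚ, D = mC P ∧ mC P * W.y = W.y * mC P},
      (fun a => Pᵀ * mC (j a) * R) ∈ S ∧ (fun a => Pᵀ * (mC (j a))ᵀ * R) ∈ S := by
    intro P hP R hR
    induction hP using Submodule.span_induction with
    | mem P hP =>
      obtain ⟨P, rfl, hP⟩ := hP
      induction hR using Submodule.span_induction with
      | mem R hR =>
        obtain ⟨R, rfl, hR⟩ := hR
        rw [hS]
        refine ⟨Submodule.subset_span ⟨_, ⟨P, R, hP, hR, Or.inl rfl⟩, ?_⟩,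
          Submodule.subset_span ⟨_, ⟨P, R, hP, hR, Or.inr rfl⟩, ?_⟩⟩
        · funext a
          change mC (Pᵀ * j a * R) = _
          rw [mC_mul, mC_mul]; rfl
        · funext a
          change mC (Pᵀ * (j a)ᵀ * R) = _
          rw [mC_mul, mC_mul]; rfl
      | zero =>
        simp only [mul_zero]
        exact ⟨S.zero_mem, S.zero_mem⟩
      | add x y _ _ hx hy =>
        simp only [mul_add]
        exact ⟨S.add_mem hx.1 hy.1, S.add_mem hx.2 hy.2⟩
      | smul z x _ hx =>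
        simp only [mul_smul_comm]
        exact ⟨S.smul_mem z hx.1, S.smul_mem z hx.2⟩
    | zero =>
      simp only [Matrix.transpose_zero, zero_mul]
      exact ⟨S.zero_mem, S.zero_mem⟩
    | add x y _ _ hx hy =>
      simp only [Matrix.transpose_add, add_mul]
      exact ⟨S.add_mem hx.1 hy.1, S.add_mem hx.2 hy.2⟩
    | smul z x _ hx =>
      simp only [Matrix.transpose_smul, smul_mul_assoc]
      exact ⟨S.smul_mem z hx.1, S.smul_mem z hx.2⟩
  have hcx : (fun a => mC (κ a)) ∈ S := by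
    have h2 : (fun a => mC (κ a)) = fun a => (mC W.E * (U.Ei * m')) *
        dd (mC T.Q) U.o (star U.o) U.v U.s U.R U.E U.F (Pi.single a 1) := by
      funext a
      rw [← mul_assoc, U.E_Ei, one_mul, hval']
    rw [h2]
    clear h2 hval'
    obtain ⟨N', hN'd⟩ : ∃ N', N' = U.Ei * m' := ⟨_, rfl⟩
    rw [← hN'd] at h1 ⊢
    clear hN'd
    induction h1 using Submodule.span_induction with
    | mem Y hY =>
      obtain ⟨P, R, hP, hR, hY⟩ := hY
      obtain ⟨P', hP', hPT⟩ := U.cm_adj hP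
      have h3 := hbil P' (U.cm_span hP') R (U.cm_span hR)
      rcases hY with rfl | rfl
      · convert h3.1 using 1
        funext a
        calc mC W.E * (P * (U.Ei * m) * R) * dd (mC T.Q) U.o (star U.o) U.v U.s U.R U.E U.F
              (Pi.single a 1) = (mC W.E * P * U.Ei) * m * (R *
              dd (mC T.Q) U.o (star U.o) U.v U.s U.R U.E U.F (Pi.single a 1)) := by
              simp only [mul_assoc]
          _ = P'ᵀ * (m * dd (mC T.Q) U.o (star U.o) U.v U.s U.R U.E U.F (Pi.single a 1)) * R := by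
              rw [hR.dd, ← hPT]; simp only [mul_assoc]
          _ = _ := by rw [← hval]
      · convert h3.2 using 1
        funext a
        calc mC W.E * (P * (U.Ei * mᵀ) * R) * dd (mC T.Q) U.o (star U.o) U.v U.s U.R U.E U.F
              (Pi.single a 1) = (mC W.E * P * U.Ei) * mᵀ * (R *
              dd (mC T.Q) U.o (star U.o) U.v U.s U.R U.E U.F (Pi.single a 1)) := by
              simp only [mul_assoc]
          _ = P'ᵀ * (mᵀ * dd (mC T.Q) U.o (star U.o) U.v U.s U.R U.E U.F (Pi.single a 1)) * R := by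
              rw [hR.dd, ← hPT]; simp only [mul_assoc]
          _ = _ := by rw [← hvalt]
    | zero =>
      simp only [mul_zero, zero_mul]
      exact S.zero_mem
    | add x y _ _ hx hy =>
      simp only [mul_add, add_mul]
      exact S.add_mem hx hy
    | smul z x _ hx =>
      simp only [mul_smul_comm, smul_mul_assoc]
      exact S.smul_mem z hx
  -- descent to the rational numbers
  rw [hS] at hcx
  exact rat_span_fam hcx

end

end Pool.Agent.L5helper24.KS
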