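import Mathlib

/-!
# The algebra generated by the Lie algebra of a Hodge structure of K3 type acting on a Hodge
structure of level one
-/

set_option autoImplicit false
set_option linter.unusedSectionVars false

namespace Pool.Agent.L5helper24.KS

noncomputable section

/-- The relations between the images of the elements of the Lie algebra `so(T)`. -/
structure Rel {A ι : Type} [Ring A] [Algebra ℂ A] (y R y' : A) (E F : ι → A) : Prop where
  dec : y = R + y'
  sq : (4 : ℂ) • (y * y) = 1
  cE : ∀ i, y' * E i = E i * y'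
  cF : ∀ i, y' * F i = F i * y'
  cR : y' * R = R * y'
  RE : ∀ i, R * E i - E i * R = E i
  RF : ∀ i, R * F i - F i * R = -F i
  EF : ∀ i, E i * F i - F i * E i = R
  EFx : ∀ i j, i ≠ j → E i * F j - F j * E i = -(E j * F i - F i * E j)

namespace Rel

variable {A ι : Type} [Ring A] [Algebra ℂ A] {y R y' : A} {E F : ι → A}

theorem two_cancel {X : A} (h : X = -X) : X = 0 := by
  have h1 : (2 : ℂ) • X = 0 := by
    rw [two_smul]
    nth_rewrite 2 [h]
    exact add_neg_cancel X
  have h2 : X = (1 / 2 : ℂ) • (2 : ℂ) • X := by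
    rw [smul_smul]; norm_num
  rw [h2, h1, smul_zero]

theorem half {X : A} {z : A} (h : z + z = X) : z = (1 / 2 : ℂ) • X := by
  rw [← h, ← two_smul ℂ z, smul_smul]; norm_num

variable (h : Rel y R y' E F)
include h

theorem y2 : y * y = (1 / 4 : ℂ) • 1 := by
  rw [← h.sq, smul_smul]; norm_num

/-- general lemma: `[y, X] = X` -/
theorem pos_part {X : A} (hX : y * X - X * y = X) :
    y * X = (1 / 2 : ℂ) • X ∧ X * y = -((1 / 2 : ℂ) • X) := by
  have e1 : y * (y * X) = (1 / 4 : ℂ) • X := by
    rw [← mul_assoc, h.y2, smul_mul_assoc, one_mul]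
  have e2 : X * y * y = (1 / 4 : ℂ) • X := by
    rw [mul_assoc, h.y2, mul_smul_comm, mul_one]
  have e3 : y * (y * X) - y * (X * y) = y * X := by rw [← mul_sub, hX]
  have e4 : y * X * y - X * y * y = X * y := by rw [← sub_mul, hX]
  have e5 : y * X + X * y = 0 := by
    calc y * X + X * y = (y * (y * X) - y * (X * y)) + (y * X * y - X * y * y) := by rw [e3, e4]
      _ = 0 := by rw [e1, e2, mul_assoc y X y]; abel
  have e6 : y * X + y * X = X := by
    calc y * X + y * X = (y * X - X * y) + (y * X + X * y) := by abel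
      _ = X := by rw [hX, e5, add_zero]
  have e7 := half e6
  refine ⟨e7, ?_⟩
  rw [← e7]
  exact eq_neg_of_add_eq_zero_right e5

theorem neg_part {X : A} (hX : y * X - X * y = -X) :
    y * X = -((1 / 2 : ℂ) • X) ∧ X * y = (1 / 2 : ℂ) • X := by
  have e1 : y * (y * X) = (1 / 4 : ℂ) • X := by
    rw [← mul_assoc, h.y2, smul_mul_assoc, one_mul]
  have e2 : X * y * y = (1 / 4 : ℂ) • X := by
    rw [mul_assoc, h.y2, mul_smul_comm, mul_one]
  have e3 : y * (y * X) - y * (X * y) = -(y * X) := by rw [← mul_sub, hX, mul_neg]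
  have e4 : y * X * y - X * y * y = -(X * y) := by rw [← sub_mul, hX, neg_mul]
  have e5 : y * X + X * y = 0 := by
    have : -(y * X + X * y) = 0 := by
      calc -(y * X + X * y) = (y * (y * X) - y * (X * y)) + (y * X * y - X * y * y) := by
            rw [e3, e4, neg_add]
        _ = 0 := by rw [e1, e2, mul_assoc y X y]; abel
    rwa [neg_eq_zero] at this
  have e6 : X * y + X * y = X := by
    calc X * y + X * y = -(y * X - X * y) + (y * X + X * y) := by abel
      _ = X := by rw [hX, e5, add_zero, neg_neg]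
  have e7 := half e6
  refine ⟨?_, e7⟩
  rw [← e7]
  exact eq_neg_of_add_eq_zero_left e5

theorem yE' (i : ι) : y * E i - E i * y = E i := by
  rw [h.dec, add_mul, mul_add, h.cE i]
  calc R * E i + E i * y' - (E i * R + E i * y') = R * E i - E i * R := by abel
    _ = E i := h.RE i

theorem yF' (i : ι) : y * F i - F i * y = -F i := by
  rw [h.dec, add_mul, mul_add, h.cF i]
  calc R * F i + F i * y' - (F i * R + F i * y') = R * F i - F i * R := by abel
    _ = -F i := h.RF i

theorem yE (i : ι) : y * E i = (1 / 2 : ℂ) • E i := (h.pos_part (h.yE' i)).1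
theorem Ey (i : ι) : E i * y = -((1 / 2 : ℂ) • E i) := (h.pos_part (h.yE' i)).2
theorem yF (i : ι) : y * F i = -((1 / 2 : ℂ) • F i) := (h.neg_part (h.yF' i)).1
theorem Fy (i : ι) : F i * y = (1 / 2 : ℂ) • F i := (h.neg_part (h.yF' i)).2

theorem EE (i j : ι) : E i * E j = 0 := by
  have h1 : E i * (y * E j) = (1 / 2 : ℂ) • (E i * E j) := by rw [h.yE, mul_smul_comm]
  have h2 : E i * y * E j = -((1 / 2 : ℂ) • (E i * E j)) := by
    rw [h.Ey, neg_mul, smul_mul_assoc]
  have h3 : (1 / 2 : ℂ) • (E i * E j) = 0 := by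
    apply two_cancel
    rw [← h2, mul_assoc, h1]
  have h4 : E i * E j = (2 : ℂ) • (1 / 2 : ℂ) • (E i * E j) := by rw [smul_smul]; norm_num
  rw [h4, h3, smul_zero]

theorem FF (i j : ι) : F i * F j = 0 := by
  have h1 : F i * (y * F j) = -((1 / 2 : ℂ) • (F i * F j)) := by
    rw [h.yF, mul_neg, mul_smul_comm]
  have h2 : F i * y * F j = (1 / 2 : ℂ) • (F i * F j) := by
    rw [h.Fy, smul_mul_assoc]
  have h3 : (1 / 2 : ℂ) • (F i * F j) = 0 := by
    apply two_cancel
    rw [← h1, ← mul_assoc, h2]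
  have h4 : F i * F j = (2 : ℂ) • (1 / 2 : ℂ) • (F i * F j) := by rw [smul_smul]; norm_num
  rw [h4, h3, smul_zero]

theorem EFE (i : ι) : E i * F i * E i = (1 / 2 : ℂ) • E i := by
  apply half
  have h1 := h.RE i
  rw [← h.EF i, sub_mul, mul_sub, mul_assoc (F i), h.EE, mul_zero, sub_zero,
    ← mul_assoc (E i) (E i), h.EE, zero_mul, zero_sub, sub_neg_eq_add, ← mul_assoc] at h1
  exact h1

theorem FEF (i : ι) : F i * E i * F i = (1 / 2 : ℂ) • F i := by
  apply half
  have h1 := h.RF i
  rw [← h.EF i, sub_mul, mul_sub, mul_assoc (E i), h.FF, mul_zero, zero_sub,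
    ← mul_assoc (F i) (F i), h.FF, zero_mul, sub_zero, ← mul_assoc] at h1
  rw [← neg_inj, ← h1]
  abel

theorem RE1 (i : ι) : R * E i = (1 / 2 : ℂ) • E i := by
  rw [← h.EF i, sub_mul, mul_assoc (F i), h.EE, mul_zero, sub_zero, h.EFE]

theorem ER1 (i : ι) : E i * R = -((1 / 2 : ℂ) • E i) := by
  rw [← h.EF i, mul_sub, ← mul_assoc (E i) (E i), h.EE, zero_mul, zero_sub, ← mul_assoc, h.EFE]

theorem RF1 (i : ι) : R * F i = -((1 / 2 : ℂ) • F i) := by
  rw [← h.EF i, sub_mul, mul_assoc (E i), h.FF, mul_zero, zero_sub, h.FEF]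

theorem FR1 (i : ι) : F i * R = (1 / 2 : ℂ) • F i := by
  rw [← h.EF i, mul_sub, ← mul_assoc (F i) (F i), h.FF, zero_mul, sub_zero, ← mul_assoc, h.FEF]

theorem y'E (i : ι) : y' * E i = 0 := by
  have h1 := h.yE i
  rw [h.dec, add_mul, h.RE1] at h1
  exact add_eq_left.1 h1

theorem Ey' (i : ι) : E i * y' = 0 := by rw [← h.cE, h.y'E]

theorem y'F (i : ι) : y' * F i = 0 := by
  have h1 := h.yF i
  rw [h.dec, add_mul, h.RF1] at h1
  exact add_eq_left.1 h1

theorem Fy' (i : ι) : F i * y' = 0 := by rw [← h.cF, h.y'F]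

theorem y'R [Nonempty ι] : y' * R = 0 := by
  obtain ⟨i⟩ := ‹Nonempty ι›
  rw [← h.EF i, mul_sub, ← mul_assoc, h.y'E, ← mul_assoc, h.y'F, zero_mul, zero_mul, sub_zero]

theorem Ry' [Nonempty ι] : R * y' = 0 := by rw [← h.cR, h.y'R]

/-- the anticommutator of `E i` and `F i` -/
theorem RR (i : ι) : R * R = (1 / 2 : ℂ) • (E i * F i + F i * E i) := by
  nth_rewrite 2 [← h.EF i]
  rw [mul_sub, ← mul_assoc, h.RE1, ← mul_assoc, h.RF1]
  simp only [smul_mul_assoc, neg_mul, sub_neg_eq_add, smul_add]

theorem cross (i j : ι) (hij : i ≠ j) : E i * F j + E j * F i = 0 ∧ F j * E i + F i * E j = 0 := by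
  have h1 : E i * F j + E j * F i = F j * E i + F i * E j := by
    have := h.EFx i j hij
    have h2 : E i * F j + E j * F i - (F j * E i + F i * E j) =
        (E i * F j - F j * E i) + (E j * F i - F i * E j) := by abel
    rw [this, neg_add_cancel] at h2
    exact sub_eq_zero.1 h2
  have h2 : y * (E i * F j + E j * F i) = (1 / 2 : ℂ) • (E i * F j + E j * F i) := by
    rw [mul_add, ← mul_assoc, ← mul_assoc, h.yE, h.yE, smul_mul_assoc, smul_mul_assoc, smul_add]
  have h3 : y * (F j * E i + F i * E j) = -((1 / 2 : ℂ) • (F j * E i + F i * E j)) := by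
    rw [mul_add, ← mul_assoc, ← mul_assoc, h.yF, h.yF, neg_mul, neg_mul, smul_mul_assoc,
      smul_mul_assoc, smul_add, neg_add]
  have h4 : (1 / 2 : ℂ) • (E i * F j + E j * F i) = 0 := by
    apply two_cancel
    rw [← h2]
    nth_rewrite 1 [h1]
    rw [h3, h2, h1]
  have h5 : E i * F j + E j * F i = 0 := by
    have : E i * F j + E j * F i = (2 : ℂ) • (1 / 2 : ℂ) • (E i * F j + E j * F i) := by
      rw [smul_smul]; norm_num
    rw [this, h4, smul_zero]
  exact ⟨h5, by rw [← h1, h5]⟩

end Rel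

/-- the projector to the nontrivial part -/
def proj {A : Type} [Ring A] [Algebra ℂ A] (R : A) : A := (4 : ℂ) • (R * R)

/-- the generators of the Clifford algebra -/
def gen {A ι : Type} [Ring A] [Algebra ℂ A] (s : ℂ) (R : A) (E F : ι → A) : Option ι → A
  | none => (2 : ℂ) • R
  | some i => s • (E i + F i)

namespace Rel

variable {A ι : Type} [Ring A] [Algebra ℂ A] {y R y' : A} {E F : ι → A} {s : ℂ}

variable (h : Rel y R y' E F)
include h

theorem pE (i : ι) : proj R * E i = E i := by
  rw [proj, smul_mul_assoc, mul_assoc, h.RE1, mul_smul_comm, h.RE1, smul_smul, smul_smul]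
  norm_num

theorem Ep (i : ι) : E i * proj R = E i := by
  rw [proj, mul_smul_comm, ← mul_assoc, h.ER1, neg_mul, smul_mul_assoc, h.ER1]
  module

theorem pF (i : ι) : proj R * F i = F i := by
  rw [proj, smul_mul_assoc, mul_assoc, h.RF1, mul_neg, mul_smul_comm, h.RF1]
  module

theorem Fp (i : ι) : F i * proj R = F i := by
  rw [proj, mul_smul_comm, ← mul_assoc, h.FR1, smul_mul_assoc, h.FR1,
    smul_smul, smul_smul]
  norm_num

theorem pR [Nonempty ι] : proj R * R = R := by
  obtain ⟨i⟩ := ‹Nonempty ι›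
  nth_rewrite 2 [← h.EF i]
  nth_rewrite 2 [← h.EF i]
  rw [mul_sub, ← mul_assoc, ← mul_assoc, h.pE, h.pF]

theorem Rp [Nonempty ι] : R * proj R = R := by
  have h1 := h.pR
  rw [proj, smul_mul_assoc] at h1
  rw [proj, mul_smul_comm, ← mul_assoc, h1]

theorem pp [Nonempty ι] : proj R * proj R = proj R := by
  nth_rewrite 2 [proj]
  rw [mul_smul_comm, ← mul_assoc, h.pR]
  rfl

theorem y'p [Nonempty ι] : y' * proj R = 0 := by
  rw [proj, mul_smul_comm, ← mul_assoc, h.y'R, zero_mul, smul_zero]

theorem py' [Nonempty ι] : proj R * y' = 0 := by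
  rw [proj, smul_mul_assoc, mul_assoc, h.Ry', mul_zero, smul_zero]

theorem pgen [Nonempty ι] (k : Option ι) : proj R * gen s R E F k = gen s R E F k := by
  cases k with
  | none => rw [gen, mul_smul_comm, h.pR]
  | some i => rw [gen, mul_smul_comm, mul_add, h.pE, h.pF]

theorem genp [Nonempty ι] (k : Option ι) : gen s R E F k * proj R = gen s R E F k := by
  cases k with
  | none => rw [gen, smul_mul_assoc, h.Rp]
  | some i => rw [gen, smul_mul_assoc, add_mul, h.Ep, h.Fp]

theorem gen_sq (hs : s * s = 2) (k : Option ι) :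
    gen s R E F k * gen s R E F k = proj R := by
  cases k with
  | none => rw [gen, proj, smul_mul_assoc, mul_smul_comm, smul_smul]; norm_num
  | some i =>
    rw [gen, proj, smul_mul_assoc, mul_smul_comm, smul_smul, hs, h.RR i, add_mul, mul_add,
      mul_add, h.EE, h.FF, smul_smul, zero_add, add_zero]
    norm_num

theorem gen_anti (k l : Option ι) (hkl : k ≠ l) :
    gen s R E F k * gen s R E F l = -(gen s R E F l * gen s R E F k) := by
  cases k with
  | none =>
    cases l with
    | none => exact absurd rfl hkl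
    | some j =>
      simp only [gen, smul_mul_assoc, mul_smul_comm, mul_add, add_mul, h.RE1, h.RF1, h.ER1,
        h.FR1]
      module
  | some i =>
    cases l with
    | none =>
      simp only [gen, smul_mul_assoc, mul_smul_comm, mul_add, add_mul, h.RE1, h.RF1, h.ER1,
        h.FR1]
      module
    | some j =>
      have hij : i ≠ j := fun h' => hkl (by rw [h'])
      obtain ⟨h1, h2⟩ := h.cross i j hij
      simp only [gen, smul_mul_assoc, mul_smul_comm, mul_add, add_mul, h.EE, h.FF, zero_add,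
        add_zero]
      have h3 : E i * F j = -(E j * F i) := eq_neg_of_add_eq_zero_left h1
      have h4 : F j * E i = -(F i * E j) := eq_neg_of_add_eq_zero_left h2
      rw [h3, h4]
      module

theorem E_eq (hs : s * s = 2) (i : ι) : E i = (s / 4) • (gen s R E F (some i) +
    gen s R E F none * gen s R E F (some i)) := by
  simp only [gen, smul_mul_assoc, mul_smul_comm, mul_add, h.RE1, h.RF1]
  have e : (s / 4) • (s • (E i + F i) + s • ((2 : ℂ) • (1 / 2 : ℂ) • E i +
      (2 : ℂ) • -((1 / 2 : ℂ) • F i))) = ((s * s) / 2) • E i := by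
    module
  rw [e, hs]
  norm_num

theorem F_eq (hs : s * s = 2) (i : ι) : F i = (s / 4) • (gen s R E F (some i) -
    gen s R E F none * gen s R E F (some i)) := by
  simp only [gen, smul_mul_assoc, mul_smul_comm, mul_add, h.RE1, h.RF1]
  have e : (s / 4) • (s • (E i + F i) - s • ((2 : ℂ) • (1 / 2 : ℂ) • E i +
      (2 : ℂ) • -((1 / 2 : ℂ) • F i))) = ((s * s) / 2) • F i := by
    module
  rw [e, hs]
  norm_num

end Rel

end

end Pool.Agent.L5helper24.KS
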