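import Mathlib

/-!
# Splitting off an ideal of a star-closed Lie algebra
-/

set_option autoImplicit false
set_option linter.unusedSectionVars false

open Matrix Finset Module
open scoped ComplexOrder

namespace Pool.Agent.L5helper24.KS

noncomputable section

/-- The projection to a subspace on which the trace form is nondegenerate. -/
theorem exists_proj {κ : Type} [Fintype κ] [DecidableEq κ] (K : Submodule ℂ (Matrix κ κ ℂ))
    (hK : ∀ V ∈ K, (∀ V' ∈ K, (V * V').trace = 0) → V = 0) (X : Matrix κ κ ℂ) :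
    ∃ V ∈ K, ∀ V' ∈ K, ((X - V) * V').trace = 0 := by
  let B0 : Matrix κ κ ℂ →ₗ[ℂ] Matrix κ κ ℂ →ₗ[ℂ] ℂ :=
    LinearMap.mk₂ ℂ (fun V V' => (V * V').trace)
      (fun a b c => by rw [Matrix.add_mul, Matrix.trace_add])
      (fun z a b => by rw [Matrix.smul_mul, Matrix.trace_smul])
      (fun a b c => by rw [Matrix.mul_add, Matrix.trace_add])
      (fun z a b => by rw [Matrix.mul_smul, Matrix.trace_smul])
  let B : K →ₗ[ℂ] Module.Dual ℂ K :=
    { toFun := fun V => (B0 V.1).comp K.subtype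
      map_add' := by
        intro a b
        ext v
        simp
      map_smul' := by
        intro z a
        ext v
        simp }
  have hB : ∀ (V V' : K), B V V' = (V.1 * V'.1).trace := fun V V' => rfl
  have hinj : Function.Injective B := by
    rw [← LinearMap.ker_eq_bot, LinearMap.ker_eq_bot']
    intro V hV
    apply Subtype.ext
    apply hK V.1 V.2
    intro V' hV'
    have := LinearMap.congr_fun hV ⟨V', hV'⟩
    exact this
  have hsurj : Function.Surjective B :=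
    (LinearMap.injective_iff_surjective_of_finrank_eq_finrank
      (Subspace.dual_finrank_eq (K := ℂ) (V := K)).symm).1 hinj
  obtain ⟨V, hV⟩ := hsurj ((B0 X).comp K.subtype)
  refine ⟨V.1, V.2, fun V' hV' => ?_⟩
  have h1 := LinearMap.congr_fun hV ⟨V', hV'⟩
  have h2 : (V.1 * V').trace = (X * V').trace := h1
  rw [Matrix.sub_mul, Matrix.trace_sub, h2, sub_self]

/-- the pairs `(Z, V)` of `L` such that `V` is orthogonal to the ideal of the pairs `(0, V')` -/
def orth {α κ : Type} [AddCommGroup α] [Module ℂ α] [Fintype κ]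
    (L : Submodule ℂ (α × Matrix κ κ ℂ)) : Submodule ℂ (α × Matrix κ κ ℂ) where
  carrier := {P | P ∈ L ∧ ∀ V', ((0 : α), V') ∈ L → (P.2 * V').trace = 0}
  zero_mem' := ⟨L.zero_mem, fun V' _ => by simp⟩
  add_mem' := by
    rintro a b ⟨ha, ha'⟩ ⟨hb, hb'⟩
    refine ⟨L.add_mem ha hb, fun V' hV' => ?_⟩
    rw [Prod.snd_add, Matrix.add_mul, Matrix.trace_add, ha' V' hV', hb' V' hV', add_zero]
  smul_mem' := by
    rintro z a ⟨ha, ha'⟩
    refine ⟨L.smul_mem z ha, fun V' hV' => ?_⟩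
    rw [Prod.smul_snd, Matrix.smul_mul, Matrix.trace_smul, ha' V' hV', smul_zero]

section
variable {n : ℕ} {κ : Type} [Fintype κ] [DecidableEq κ]
  {L : Submodule ℂ (Matrix (Fin n) (Fin n) ℂ × Matrix κ κ ℂ)}

/-- the positivity needed for the splitting: an adjoint on the second component, given by a matrix
`M` with inverse `M'` -/
structure IsAdj (L : Submodule ℂ (Matrix (Fin n) (Fin n) ℂ × Matrix κ κ ℂ))
    (M M' : Matrix κ κ ℂ) : Prop where
  left : M * M' = 1
  right : M' * M = 1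
  mem : ∀ V, ((0 : Matrix (Fin n) (Fin n) ℂ), V) ∈ L → (0, M' * (M * V * M')ᴴ * M) ∈ L

theorem IsAdj.eq_zero {M M' : Matrix κ κ ℂ} (h : IsAdj L M M') {V : Matrix κ κ ℂ}
    (hV : ((0 : Matrix (Fin n) (Fin n) ℂ), V) ∈ L)
    (hV' : ∀ V', ((0 : Matrix (Fin n) (Fin n) ℂ), V') ∈ L → (V * V').trace = 0) : V = 0 := by
  have h1 := hV' _ (h.mem V hV)
  have h2 : (M * V * M' * (M * V * M')ᴴ).trace = 0 := by
    calc (M * V * M' * (M * V * M')ᴴ).trace = (M * (V * (M' * (M * V * M')ᴴ))).trace := by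
          simp only [Matrix.mul_assoc]
      _ = (V * (M' * (M * V * M')ᴴ) * M).trace := Matrix.trace_mul_comm _ _
      _ = (V * (M' * (M * V * M')ᴴ * M)).trace := by simp only [Matrix.mul_assoc]
      _ = 0 := h1
  have h3 : M * V * M' = 0 := Matrix.trace_mul_conjTranspose_self_eq_zero_iff.1 h2
  calc V = M' * (M * V * M') * M := by
        rw [Matrix.mul_assoc, Matrix.mul_assoc, Matrix.mul_assoc, h.right, Matrix.mul_one,
          ← Matrix.mul_assoc, h.right, Matrix.one_mul]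
    _ = 0 := by rw [h3]; simp

theorem IsAdj.split {M M' : Matrix κ κ ℂ} (h : IsAdj L M M')
    {P : Matrix (Fin n) (Fin n) ℂ × Matrix κ κ ℂ} (hP : P ∈ L) :
    ∃ V', ((0 : Matrix (Fin n) (Fin n) ℂ), V') ∈ L ∧ (P.1, P.2 - V') ∈ orth L := by
  obtain ⟨V', hV', hV⟩ := exists_proj (L.comap (LinearMap.inr ℂ _ _)) (fun V hV hV' =>
    h.eq_zero hV hV') P.2
  refine ⟨V', hV', ?_, fun V'' hV'' => hV V'' hV''⟩
  have : (P.1, P.2 - V') = P - ((0 : Matrix (Fin n) (Fin n) ℂ), V') := by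
    ext <;> simp
  rw [this]
  exact L.sub_mem hP hV'

theorem IsAdj.unique {M M' : Matrix κ κ ℂ} (h : IsAdj L M M') {Z : Matrix (Fin n) (Fin n) ℂ}
    {V V' : Matrix κ κ ℂ} (h1 : (Z, V) ∈ orth L) (h2 : (Z, V') ∈ orth L) : V = V' := by
  have h3 := (orth L).sub_mem h1 h2
  rw [Prod.mk_sub_mk, sub_self] at h3
  exact sub_eq_zero.1 (h.eq_zero h3.1 h3.2)

/-- `L` is closed under brackets. -/
def IsLie (L : Submodule ℂ (Matrix (Fin n) (Fin n) ℂ × Matrix κ κ ℂ)) : Prop :=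
  ∀ P ∈ L, ∀ P' ∈ L, (P.1 * P'.1 - P'.1 * P.1, P.2 * P'.2 - P'.2 * P.2) ∈ L

theorem IsAdj.comm {M M' : Matrix κ κ ℂ} (h : IsAdj L M M') (hL : IsLie L)
    {P : Matrix (Fin n) (Fin n) ℂ × Matrix κ κ ℂ} (hP : P ∈ orth L) {V : Matrix κ κ ℂ}
    (hV : ((0 : Matrix (Fin n) (Fin n) ℂ), V) ∈ L) : P.2 * V = V * P.2 := by
  have h1 : ((0 : Matrix (Fin n) (Fin n) ℂ), P.2 * V - V * P.2) ∈ L := by
    have := hL P hP.1 _ hV
    simpa using this
  refine sub_eq_zero.1 (h.eq_zero h1 fun V' hV' => ?_)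
  have h2 : ((0 : Matrix (Fin n) (Fin n) ℂ), V * V' - V' * V) ∈ L := by
    have := hL _ hV _ hV'
    simpa using this
  have h3 := hP.2 _ h2
  rw [Matrix.mul_sub, Matrix.trace_sub] at h3
  rw [Matrix.sub_mul, Matrix.trace_sub]
  calc (P.2 * V * V').trace - (V * P.2 * V').trace
      = (P.2 * (V * V')).trace - (P.2 * (V' * V)).trace := by
        rw [Matrix.mul_assoc, Matrix.mul_assoc V, Matrix.trace_mul_comm V, Matrix.mul_assoc]
    _ = 0 := h3

theorem orth_br (hL : IsLie L)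
    {P P' : Matrix (Fin n) (Fin n) ℂ × Matrix κ κ ℂ} (hP : P ∈ orth L) (hP' : P' ∈ orth L) :
    (P.1 * P'.1 - P'.1 * P.1, P.2 * P'.2 - P'.2 * P.2) ∈ orth L := by
  refine ⟨hL P hP.1 P' hP'.1, fun V hV => ?_⟩
  have h2 : ((0 : Matrix (Fin n) (Fin n) ℂ), P'.2 * V - V * P'.2) ∈ L := by
    have := hL _ hP'.1 _ hV
    simpa using this
  have h3 := hP.2 _ h2
  rw [Matrix.mul_sub, Matrix.trace_sub] at h3
  change ((P.2 * P'.2 - P'.2 * P.2) * V).trace = 0
  rw [Matrix.sub_mul, Matrix.trace_sub]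
  calc (P.2 * P'.2 * V).trace - (P'.2 * P.2 * V).trace
      = (P.2 * (P'.2 * V)).trace - (P.2 * (V * P'.2)).trace := by
        rw [Matrix.mul_assoc, Matrix.mul_assoc P'.2, Matrix.trace_mul_comm P'.2, Matrix.mul_assoc]
    _ = 0 := h3

end

end

end Pool.Agent.L5helper24.KS
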