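import Pool.Agent.W927.PG.Coord

/-!
# Frames of a Hodge structure of K3 type and the elements of the orthogonal Lie algebra
-/

set_option autoImplicit false
set_option linter.unusedSectionVars false

open Matrix Finset Module

namespace Pool.Agent.L5helper24.KS

open Pool.Agent Pool.Agent.W544.PG

noncomputable section

/-- the bilinear form given by a matrix -/
def bb {n : ℕ} (Q : Matrix (Fin n) (Fin n) ℂ) (u v : Fin n → ℂ) : ℂ := u ⬝ᵥ (Q *ᵥ v)

/-- the operator `u ∧ v` -/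
def wd {n : ℕ} (Q : Matrix (Fin n) (Fin n) ℂ) (u v : Fin n → ℂ) : Matrix (Fin n) (Fin n) ℂ :=
  vecMulVec u (Q *ᵥ v) - vecMulVec v (Q *ᵥ u)

section
variable {n : ℕ} {Q : Matrix (Fin n) (Fin n) ℂ}

theorem bb_add_left (u u' v : Fin n → ℂ) : bb Q (u + u') v = bb Q u v + bb Q u' v := by
  rw [bb, add_dotProduct]; rfl

theorem bb_smul_left (z : ℂ) (u v : Fin n → ℂ) : bb Q (z • u) v = z * bb Q u v := by
  rw [bb, smul_dotProduct, smul_eq_mul]; rfl

theorem bb_comm (hQ : Qᵀ = Q) (u v : Fin n → ℂ) : bb Q u v = bb Q v u := by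
  rw [bb, bb, dotProduct_mulVec, ← mulVec_transpose, hQ, dotProduct_comm]

theorem wd_mulVec (hQ : Qᵀ = Q) (u v w : Fin n → ℂ) :
    wd Q u v *ᵥ w = bb Q v w • u - bb Q u w • v := by
  rw [wd, Matrix.sub_mulVec, vecMulVec_mulVec, vecMulVec_mulVec, op_smul_eq_smul,
    op_smul_eq_smul]
  rw [dotProduct_comm, dotProduct_comm (Q *ᵥ u), ← bb, ← bb, bb_comm hQ w v, bb_comm hQ w u]

theorem wd_anti (u v : Fin n → ℂ) : wd Q v u = -wd Q u v := by
  rw [wd, wd, neg_sub]

theorem wd_self (u : Fin n → ℂ) : wd Q u u = 0 := by rw [wd, sub_self]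

theorem wd_add_left (u u' v : Fin n → ℂ) : wd Q (u + u') v = wd Q u v + wd Q u' v := by
  rw [wd, wd, wd, Matrix.mulVec_add, add_vecMulVec, vecMulVec_add]; abel

theorem wd_smul_left (z : ℂ) (u v : Fin n → ℂ) : wd Q (z • u) v = z • wd Q u v := by
  rw [wd, wd, Matrix.mulVec_smul, smul_vecMulVec, vecMulVec_smul, smul_sub]

theorem wd_zero_left (v : Fin n → ℂ) : wd Q 0 v = 0 := by
  have := wd_smul_left (Q := Q) 0 0 v
  rwa [zero_smul, zero_smul] at this

theorem wd_neg_left (u v : Fin n → ℂ) : wd Q (-u) v = -wd Q u v := by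
  have := wd_smul_left (Q := Q) (-1) u v
  rwa [neg_one_smul, neg_one_smul] at this

theorem wd_sum_left {ι : Type} (s : Finset ι) (u : ι → Fin n → ℂ) (v : Fin n → ℂ) :
    wd Q (∑ i ∈ s, u i) v = ∑ i ∈ s, wd Q (u i) v := by
  classical
  induction s using Finset.induction_on with
  | empty => rw [Finset.sum_empty, Finset.sum_empty, wd_zero_left]
  | insert a s ha ih => rw [Finset.sum_insert ha, Finset.sum_insert ha, wd_add_left, ih]

theorem wd_neg_right (u v : Fin n → ℂ) : wd Q u (-v) = -wd Q u v := by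
  rw [wd_anti, wd_neg_left, neg_neg, wd_anti]

theorem wd_add_right (u v v' : Fin n → ℂ) : wd Q u (v + v') = wd Q u v + wd Q u v' := by
  rw [wd_anti, wd_add_left, wd_anti u v, wd_anti u v', neg_add, neg_neg, neg_neg]

theorem wd_smul_right (z : ℂ) (u v : Fin n → ℂ) : wd Q u (z • v) = z • wd Q u v := by
  rw [wd_anti, wd_smul_left, wd_anti u v, smul_neg, neg_neg]

theorem wd_skew (hQ : Qᵀ = Q) (u v : Fin n → ℂ) : (wd Q u v)ᵀ * Q + Q * wd Q u v = 0 := by
  rw [wd, Matrix.transpose_sub, transpose_vecMulVec, transpose_vecMulVec, Matrix.sub_mul,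
    Matrix.mul_sub, mul_vecMulVec, mul_vecMulVec, vecMulVec_mul, vecMulVec_mul,
    ← mulVec_transpose, ← mulVec_transpose, hQ]
  abel

theorem br_wd {A : Matrix (Fin n) (Fin n) ℂ} (hA : Aᵀ * Q + Q * A = 0)
    (u v : Fin n → ℂ) : A * wd Q u v - wd Q u v * A = wd Q (A *ᵥ u) v + wd Q u (A *ᵥ v) := by
  have h1 : ∀ w, (Q *ᵥ w) ᵥ* A = -(Q *ᵥ (A *ᵥ w)) := by
    intro w
    rw [← mulVec_transpose, mulVec_mulVec, mulVec_mulVec, ← Matrix.neg_mulVec,
      eq_neg_of_add_eq_zero_left hA]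
  rw [wd, wd, wd, Matrix.mul_sub, Matrix.sub_mul, mul_vecMulVec, mul_vecMulVec, vecMulVec_mul,
    vecMulVec_mul, h1, h1, vecMulVec_neg, vecMulVec_neg]
  abel

end

/-- A frame: a graded basis of a Hodge structure of K3 type. -/
structure Fr {n q : ℕ} (Q x : Matrix (Fin n) (Fin n) ℂ) (o o' : Fin n → ℂ)
    (v : Fin q → Fin n → ℂ) : Prop where
  symm : Qᵀ = Q
  oo : bb Q o o = 0
  oo' : bb Q o o' = 1
  o'o' : bb Q o' o' = 0
  ov : ∀ i, bb Q o (v i) = 0
  o'v : ∀ i, bb Q o' (v i) = 0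
  vv : ∀ i j, bb Q (v i) (v j) = if i = j then 1 else 0
  xo : x *ᵥ o = o
  xo' : x *ᵥ o' = -o'
  xv : ∀ i, x *ᵥ v i = 0
  full : ∀ u, u = bb Q o' u • o + bb Q o u • o' + ∑ i, bb Q (v i) u • v i

namespace Fr

variable {n q : ℕ} {Q x : Matrix (Fin n) (Fin n) ℂ} {o o' : Fin n → ℂ}
    {v : Fin q → Fin n → ℂ}

theorem map (h : Fr Q x o o' v) (σ : ℂ ≃+* ℂ) (hQ : Q.map σ = Q) :
    Fr Q (x.map σ) (σ ∘ o) (σ ∘ o') fun i => σ ∘ v i := by
  have hb : ∀ u w : Fin n → ℂ, bb Q (σ ∘ u) (σ ∘ w) = σ (bb Q u w) := by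
    intro u w
    nth_rewrite 1 [← hQ]
    simp only [bb, dotProduct, mulVec, Function.comp, Matrix.map_apply]
    simp only [map_sum, map_mul]
  have hm : ∀ (M : Matrix (Fin n) (Fin n) ℂ) (u : Fin n → ℂ), M.map σ *ᵥ (σ ∘ u) =
      σ ∘ (M *ᵥ u) := by
    intro M u
    ext i
    simp only [dotProduct, mulVec, Function.comp, Matrix.map_apply]
    simp only [map_sum, map_mul]
  refine ⟨h.symm, ?_, ?_, ?_, ?_, ?_, ?_, ?_, ?_, ?_, ?_⟩
  · rw [hb, h.oo, map_zero]
  · rw [hb, h.oo', map_one]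
  · rw [hb, h.o'o', map_zero]
  · intro i; rw [hb, h.ov, map_zero]
  · intro i; rw [hb, h.o'v, map_zero]
  · intro i j
    rw [hb, h.vv]
    split_ifs <;> simp
  · rw [hm, h.xo]
  · rw [hm, h.xo']
    ext i
    simp
  · intro i
    rw [hm, h.xv]
    ext k
    simp
  · intro u
    obtain ⟨u', hu'⟩ : ∃ u', u' = σ.symm ∘ u := ⟨_, rfl⟩
    have hu : u = σ ∘ u' := by
      rw [hu']; ext i; simp
    rw [hu, hb, hb]
    conv_lhs => rw [h.full u']
    ext k
    simp only [Function.comp, Pi.add_apply, Pi.smul_apply, smul_eq_mul, map_add, map_mul,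
      Finset.sum_apply, map_sum]
    congr 1
    refine Finset.sum_congr rfl fun i _ => ?_
    have := hb (v i) u'
    rw [← this]

variable (h : Fr Q x o o' v)
include h

theorem ext_mul {A B : Matrix (Fin n) (Fin n) ℂ} (h1 : A *ᵥ o = B *ᵥ o) (h2 : A *ᵥ o' = B *ᵥ o')
    (h3 : ∀ i, A *ᵥ v i = B *ᵥ v i) : A = B := by
  apply Matrix.toLin'.injective
  apply LinearMap.ext
  intro u
  rw [Matrix.toLin'_apply, Matrix.toLin'_apply, h.full u]
  simp only [Matrix.mulVec_add, Matrix.mulVec_smul, Matrix.mulVec_sum, h1, h2, h3]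

theorem o'o : bb Q o' o = 1 := by rw [bb_comm h.symm, h.oo']
theorem vo (i : Fin q) : bb Q (v i) o = 0 := by rw [bb_comm h.symm, h.ov]
theorem vo' (i : Fin q) : bb Q (v i) o' = 0 := by rw [bb_comm h.symm, h.o'v]

theorem x_eq : x = wd Q o o' := by
  apply h.ext_mul
  · rw [h.xo, wd_mulVec h.symm, h.o'o, h.oo]; simp
  · rw [h.xo', wd_mulVec h.symm, h.o'o', h.oo']; simp
  · intro i; rw [h.xv, wd_mulVec h.symm, h.o'v, h.ov]; simp

theorem skew : xᵀ * Q + Q * x = 0 := by rw [h.x_eq]; exact wd_skew h.symm _ _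

/-- `[x, ω ∧ v] = ω ∧ v` -/
theorem x_e (i : Fin q) : x * wd Q o (v i) - wd Q o (v i) * x = wd Q o (v i) := by
  rw [br_wd h.skew, h.xo, h.xv, wd_anti (0 : Fin n → ℂ), wd_zero_left, neg_zero, add_zero]

theorem x_f (i : Fin q) : x * wd Q (v i) o' - wd Q (v i) o' * x = -wd Q (v i) o' := by
  rw [br_wd h.skew, h.xo', h.xv, wd_zero_left, zero_add, wd_neg_right]

theorem e_f (i j : Fin q) : wd Q o (v i) * wd Q (v j) o' - wd Q (v j) o' * wd Q o (v i) =
    (if i = j then 1 else 0 : ℂ) • x + wd Q (v i) (v j) := by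
  rw [br_wd (wd_skew h.symm _ _), wd_mulVec h.symm, wd_mulVec h.symm, h.ov, h.vo', h.oo',
    h.vv, zero_smul, sub_zero, zero_smul, zero_sub, one_smul, wd_neg_right, wd_smul_left,
    ← h.x_eq, wd_anti (v i) (v j), neg_neg]

/-- the orthogonal Lie algebra is spanned by the elements `u ∧ v` -/
theorem eq_sum {Z : Matrix (Fin n) (Fin n) ℂ} (hZ : Zᵀ * Q + Q * Z = 0) :
    (2 : ℂ) • Z = wd Q (Z *ᵥ o) o' + wd Q (Z *ᵥ o') o + ∑ i, wd Q (Z *ᵥ v i) (v i) := by
  have hs : ∀ a b : Fin n → ℂ, bb Q (Z *ᵥ a) b = -bb Q a (Z *ᵥ b) := by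
    intro a b
    have h1 : Zᵀ * Q = -(Q * Z) := eq_neg_of_add_eq_zero_left hZ
    rw [bb_comm h.symm, bb, bb, mulVec_mulVec, dotProduct_mulVec, ← mulVec_transpose,
      Matrix.transpose_mul, h.symm, h1, Matrix.neg_mulVec, neg_dotProduct, ← mulVec_mulVec,
      dotProduct_comm]
  apply Matrix.toLin'.injective
  apply LinearMap.ext
  intro w
  rw [Matrix.toLin'_apply, Matrix.toLin'_apply]
  have h2 : Z *ᵥ w = bb Q o' w • (Z *ᵥ o) + bb Q o w • (Z *ᵥ o') +
      ∑ i, bb Q (v i) w • (Z *ᵥ v i) := by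
    conv_lhs => rw [h.full w]
    simp only [Matrix.mulVec_add, Matrix.mulVec_smul, Matrix.mulVec_sum]
  have h3 := h.full (Z *ᵥ w)
  rw [Matrix.smul_mulVec, Matrix.add_mulVec, Matrix.add_mulVec, Matrix.sum_mulVec]
  simp only [wd_mulVec h.symm, hs]
  rw [Finset.sum_sub_distrib]
  rw [two_smul]
  nth_rewrite 1 [h2]
  nth_rewrite 1 [h3]
  simp only [neg_smul, Finset.sum_neg_distrib]
  abel

end Fr

/-- existence of frames -/
theorem exists_fr {n : ℕ} (T : HS n) (hx : (T.x * T.x).trace = 2) (hn : 2 ≤ n) :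
    ∃ (o : Fin n → ℂ) (v : Fin (n - 2) → Fin n → ℂ), Fr (mC T.Q) T.x o (star o) v := by
  obtain ⟨q, rfl⟩ : ∃ q, n = 2 + q := ⟨n - 2, by omega⟩
  obtain ⟨g, g1, g2, g3, g4⟩ := W927.PG.coord (2 + q) 1 q T (by rw [hx]; norm_num) rfl
  have hq : 2 + q - 2 = q := by omega
  rw [hq]
  obtain ⟨o, ho⟩ : ∃ o : Fin (2 + q) → ℂ, o = fun a => g a (Sum.inl 0) := ⟨_, rfl⟩
  obtain ⟨o', ho'⟩ : ∃ o' : Fin (2 + q) → ℂ, o' = fun a => g a (Sum.inr (Sum.inr 0)) := ⟨_, rfl⟩
  obtain ⟨v, hv⟩ : ∃ v : Fin q → Fin (2 + q) → ℂ, v = fun i a => g a (Sum.inr (Sum.inl i)) :=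
    ⟨_, rfl⟩
  have hsym : (mC T.Q)ᵀ = mC T.Q := by
    rw [mC, ← Matrix.transpose_map, T.symm]
  have hb : ∀ k l, bb (mC T.Q) (fun a => g a k) (fun a => g a l) = B0 1 q k l := by
    intro k l
    rw [← g1, Matrix.mul_assoc, Matrix.mul_apply]
    rfl
  have hbx : ∀ k, T.x *ᵥ (fun a => g a k) = fun a => (g * x0 1 q) a k := by
    intro k
    rw [← g4]
    rfl
  -- the inverse of `g`
  have e1 : B0 1 q * B0 1 q = 1 := by
    ext a b
    rcases a with a | a | a <;> rcases b with b | b | b <;>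
      simp [B0, Matrix.mul_apply, Fintype.sum_sum_type, Matrix.one_apply]
    · intro hb0
      exact absurd (Subsingleton.elim b 0) hb0
    · intro hb0
      exact absurd (Subsingleton.elim b 0) hb0
  have e2 : (B0 1 q * gᵀ * mC T.Q) * g = 1 := by
    rw [Matrix.mul_assoc, Matrix.mul_assoc, ← Matrix.mul_assoc gᵀ, g1, e1]
  have e3 : g * (B0 1 q * gᵀ * mC T.Q) = 1 := by
    have h1 : (gᴴ * T.H) * g = 1 := g2
    calc g * (B0 1 q * gᵀ * mC T.Q) = g * (B0 1 q * gᵀ * mC T.Q) * (g * (gᴴ * T.H)) := by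
          rw [g3, Matrix.mul_one]
      _ = g * ((B0 1 q * gᵀ * mC T.Q) * g) * (gᴴ * T.H) := by simp only [Matrix.mul_assoc]
      _ = 1 := by rw [e2, Matrix.mul_one, g3]
  have hfr : Fr (mC T.Q) T.x o o' v := by
    refine ⟨hsym, ?_, ?_, ?_, ?_, ?_, ?_, ?_, ?_, ?_, ?_⟩
    · rw [ho, hb]; simp [B0]
    · rw [ho, ho', hb]; simp [B0]
    · rw [ho', hb]; simp [B0]
    · intro i; rw [ho, hv, hb]; simp [B0]
    · intro i; rw [ho', hv, hb]; simp [B0]
    · intro i j; rw [hv, hb]; simp [B0, Matrix.one_apply]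
    · rw [ho, hbx]
      ext a
      simp [x0, big0, Matrix.mul_apply, Fintype.sum_sum_type]
    · rw [ho', hbx]
      ext a
      simp [x0, big0, Matrix.mul_apply, Fintype.sum_sum_type]
    · intro i
      rw [hv, hbx]
      ext a
      simp [x0, big0, Matrix.mul_apply, Fintype.sum_sum_type]
    · intro u
      have h1 : u = g *ᵥ (B0 1 q *ᵥ (gᵀ *ᵥ (mC T.Q *ᵥ u))) := by
        rw [mulVec_mulVec, mulVec_mulVec, mulVec_mulVec]
        have : g * B0 1 q * gᵀ * mC T.Q = 1 := by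
          rw [← e3]; simp only [Matrix.mul_assoc]
        rw [this, Matrix.one_mulVec]
      have h2 : ∀ k, (gᵀ *ᵥ (mC T.Q *ᵥ u)) k = bb (mC T.Q) (fun a => g a k) u := fun k => rfl
      conv_lhs => rw [h1]
      ext a
      simp only [Matrix.mulVec, dotProduct] at h2 ⊢
      rw [Fintype.sum_sum_type, Fintype.sum_sum_type, Fin.sum_univ_one, Fin.sum_univ_one]
      simp only [Fintype.sum_sum_type, h2, B0, ho, ho', hv, Pi.add_apply, Pi.smul_apply,
        smul_eq_mul, Finset.sum_apply]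
      simp [Matrix.one_apply, mul_comm]
      ring
  have hoo : o' = star o := by
    -- the conjugate of `o`
    have h1 : T.x *ᵥ star o = -star o := by
      have h2 := congrArg star hfr.xo
      have h3 : star (T.x *ᵥ o) = T.x.map (starRingEnd ℂ) *ᵥ star o := by
        ext a
        simp [Matrix.mulVec, dotProduct]
      rw [h3, T.real, Matrix.neg_mulVec] at h2
      rw [← neg_eq_iff_eq_neg]
      exact h2
    have h4 : ∀ u w : Fin (2 + q) → ℂ, bb (mC T.Q) (T.x *ᵥ u) w = -bb (mC T.Q) u (T.x *ᵥ w) := by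
      intro u w
      have h5 : T.xᵀ * mC T.Q = -(mC T.Q * T.x) := eq_neg_of_add_eq_zero_left T.skew
      rw [bb_comm hsym, bb, bb, mulVec_mulVec, dotProduct_mulVec, ← mulVec_transpose,
        Matrix.transpose_mul, hsym, h5, Matrix.neg_mulVec, neg_dotProduct, ← mulVec_mulVec,
        dotProduct_comm]
    have h6 : bb (mC T.Q) (star o) (star o) = 0 := by
      have := h4 (star o) (star o)
      rw [h1] at this
      have h7 : bb (mC T.Q) (-star o) (star o) = -bb (mC T.Q) (star o) (star o) := by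
        have := bb_smul_left (Q := mC T.Q) (-1) (star o) (star o)
        rwa [neg_one_smul, neg_one_mul] at this
      have h8 : bb (mC T.Q) (star o) (-star o) = -bb (mC T.Q) (star o) (star o) := by
        rw [bb_comm hsym, h7]
      rw [h7, h8, neg_neg] at this
      have h9 : (2 : ℂ) * bb (mC T.Q) (star o) (star o) = 0 := by linear_combination -this
      simpa using h9
    have h7 : ∀ i, bb (mC T.Q) (v i) (star o) = 0 := by
      intro i
      have := h4 (v i) (star o)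
      rw [h1, hfr.xv] at this
      have h8 : bb (mC T.Q) (v i) (-star o) = -bb (mC T.Q) (v i) (star o) := by
        have := bb_smul_left (Q := mC T.Q) (-1) (star o) (v i)
        rw [neg_one_smul, neg_one_mul] at this
        rw [bb_comm hsym, this, bb_comm hsym]
      have h9 : bb (mC T.Q) (0 : Fin (2 + q) → ℂ) (star o) = 0 := by simp [bb]
      rw [h8, h9, neg_neg] at this
      exact this.symm
    have h8 : bb (mC T.Q) o (star o) = 1 := by
      have h9 : (gᴴ * T.H * g) (Sum.inl 0) (Sum.inl 0) = 1 := by rw [g2]; simp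
      have h10 : (gᴴ * T.H * g) (Sum.inl 0) (Sum.inl 0) = star o ⬝ᵥ (T.H *ᵥ o) := by
        rw [Matrix.mul_assoc, Matrix.mul_apply, ho]
        rfl
      have h11 : T.H *ᵥ o = mC T.Q *ᵥ o := by
        rw [HS.H, ← mulVec_mulVec, Matrix.sub_mulVec, Matrix.smul_mulVec, ← mulVec_mulVec,
          hfr.xo, hfr.xo, Matrix.one_mulVec]
        congr 1
        module
      rw [h10, h11] at h9
      rw [bb_comm hsym]
      exact h9
    have h9 : bb (mC T.Q) o' (star o) = 0 := by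
      have h10 := hfr.full (star o)
      rw [h8] at h10
      have h11 := congrArg (fun u => bb (mC T.Q) (star o) u) h10
      simp only [h7, zero_smul, Finset.sum_const_zero, add_zero, one_smul] at h11
      rw [h6, bb_comm hsym, bb_add_left, bb_smul_left, h8] at h11
      have h12 : bb (mC T.Q) o' (star o) * 1 + bb (mC T.Q) o' (star o) = 0 := h11.symm
      have h13 : (2 : ℂ) * bb (mC T.Q) o' (star o) = 0 := by linear_combination h12
      simpa using h13
    have h10 := hfr.full (star o)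
    rw [h8, h9] at h10
    simp only [h7, zero_smul, Finset.sum_const_zero, add_zero, one_smul, zero_add] at h10
    exact h10.symm
  exact ⟨o, v, hoo ▸ hfr⟩

end

end Pool.Agent.L5helper24.KS
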