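import Pool.Agent.L5helper24.KS.Lie
import Pool.Agent.L5helper24.KS.Cls

/-!
# Positivity for Hodge structures of level one
-/

set_option autoImplicit false
set_option linter.unusedSectionVars false

open Matrix Finset Module
open scoped ComplexOrder MatrixOrder Matrix.Norms.L2Operator

namespace Pool.Agent.L5helper24.KS

open Pool.Agent Pool.Agent.W544.PG

noncomputable section

variable {n w : ℕ} (W : HW w)

/-- the Weil operator -/
def cc : Matrix (Fin w) (Fin w) ℂ := (2 * Complex.I) • W.y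

/-- the positive definite form -/
def SS : Matrix (Fin w) (Fin w) ℂ := mC W.E * cc W

theorem cc_sq : cc W * cc W = -1 := by
  rw [cc, smul_mul_assoc, mul_smul_comm, smul_smul]
  have h1 : W.y * W.y = (1 / 4 : ℂ) • 1 := by
    rw [← W.sq, smul_smul]; norm_num
  have h2 : 2 * Complex.I * (2 * Complex.I) * (1 / 4) = -1 := by
    ring_nf
    rw [Complex.I_sq]
  rw [h1, smul_smul, h2, neg_one_smul]

theorem cc_conj : (cc W).map (starRingEnd ℂ) = cc W := by
  have h := W.real
  ext i j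
  have h1 := congrFun (congrFun h i) j
  simp only [Matrix.map_apply, Matrix.neg_apply] at h1
  rw [cc, Matrix.map_apply, Matrix.smul_apply, smul_eq_mul, map_mul, map_mul, h1,
    Complex.conj_I, map_ofNat]
  ring

theorem mCE_T : (mC W.E)ᵀ = -mC W.E := by
  rw [mC, ← Matrix.transpose_map, W.alt]
  ext i j
  simp

theorem mC_conj {m : ℕ} (P : Matrix (Fin m) (Fin m) ℚ) :
    (mC P).map (starRingEnd ℂ) = mC P := by
  ext i j
  simp [mC]

theorem cc_skew : (cc W)ᵀ * mC W.E = -(mC W.E * cc W) := by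
  rw [cc, Matrix.transpose_smul, smul_mul_assoc, mul_smul_comm, eq_neg_of_add_eq_zero_left W.skew,
    smul_neg]

theorem SS_T : (SS W)ᵀ = SS W := by
  rw [SS, Matrix.transpose_mul, mCE_T, mul_neg, cc_skew, neg_neg]

theorem SS_conj : (SS W).map (starRingEnd ℂ) = SS W := by
  rw [SS, Matrix.map_mul, mC_conj, cc_conj]

theorem SS_H : (SS W)ᴴ = SS W := by
  rw [Matrix.conjTranspose, SS_T]
  exact SS_conj W

theorem SS_posDef : (SS W).PosDef := by
  refine Matrix.PosDef.of_dotProduct_mulVec_pos (SS_H W) fun v hv => ?_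
  have h1 := W.pos v hv
  have h2 : star (star v ⬝ᵥ (SS W *ᵥ v)) = star v ⬝ᵥ (SS W *ᵥ v) := by
    rw [← star_dotProduct, star_mulVec, SS_H, ← dotProduct_mulVec]
  rw [Complex.lt_def]
  refine ⟨h1, ?_⟩
  have h3 := Complex.conj_eq_iff_im.1 h2
  exact h3.symm

theorem exists_M : ∃ M M' : Matrix (Fin w) (Fin w) ℂ, M * M' = 1 ∧ M' * M = 1 ∧
    Mᴴ * M = SS W := by
  obtain ⟨M, hM, h⟩ := CStarAlgebra.isStrictlyPositive_iff_eq_star_mul_self.1
    (SS_posDef W).isStrictlyPositive
  obtain ⟨u, rfl⟩ := hM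
  exact ⟨u.1, (u⁻¹).1, u.mul_inv, u.inv_mul, h.symm⟩

end

end Pool.Agent.L5helper24.KS
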