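import Pool.Agent.W544.PG.Key
import Pool.Agent.W368.PG.XLG
import Pool.Agent.W612.PG.Xst
import Pool.Agent.W883.PG.Xdi
import Pool.Agent.W927.PG.Coord

/-!
# The Lie algebra of the Hodge group of `T ⊕ H_1(A)`
-/

set_option autoImplicit false

open Matrix Finset Module

namespace Pool.Agent.L5helper24.KS

open Pool.Agent Pool.Agent.W544.PG

noncomputable section

variable {n w : ℕ}

theorem NN_zero : NN 0 w (0 : Matrix (Fin n) (Fin n) ℂ) 0 = 0 := by
  ext i j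
  rcases i with (i | i) | i <;> rcases j with (j | j) | j <;> simp [NN]

/-- the Lie algebra of the Hodge group of `T ⊕ H_1(A)` -/
def LL (T : HS n) (W : HW w) :
    Submodule ℂ (Matrix (Fin n) (Fin n) ℂ × Matrix (Fin w) (Fin w) ℂ) where
  carrier := {P | NN 0 w P.1 P.2 ∈ hX (xT T W 0)}
  zero_mem' := by
    change NN 0 w (0 : Matrix (Fin n) (Fin n) ℂ) 0 ∈ hX (xT T W 0)
    rw [NN_zero]
    exact (hX _).zero_mem
  add_mem' := by
    intro a b ha hb
    change NN 0 w (a.1 + b.1) (a.2 + b.2) ∈ hX (xT T W 0)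
    rw [← NN_add]
    exact (hX _).add_mem ha hb
  smul_mem' := by
    intro z a ha
    change NN 0 w (z • a.1) (z • a.2) ∈ hX (xT T W 0)
    rw [← NN_smul]
    exact (hX _).smul_mem z ha

variable {T : HS n} {W : HW w}

theorem LL_skew {Z : Matrix (Fin n) (Fin n) ℂ} {V : Matrix (Fin w) (Fin w) ℂ}
    (h : (Z, V) ∈ LL T W) : Zᵀ * mC T.Q + mC T.Q * Z = 0 := by
  obtain ⟨Z', V', h1, -, h3⟩ := W883.PG.xdi n 1 w 0 T W (fun _ => 0)
    (fun a b hab => absurd rfl hab) (fun a b hab => absurd rfl hab) _ h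
  have h2 : NN 0 w Z V = NN 0 w Z' V' := h1
  rw [(NN_inj h2).1]
  exact h3

theorem LL_br {P P' : Matrix (Fin n) (Fin n) ℂ × Matrix (Fin w) (Fin w) ℂ}
    (h : P ∈ LL T W) (h' : P' ∈ LL T W) :
    (P.1 * P'.1 - P'.1 * P.1, P.2 * P'.2 - P'.2 * P.2) ∈ LL T W := by
  have := (W368.PG.xlg _ (xT T W 0)).1 _ h _ h'
  rwa [NN_mul, NN_mul, NN_sub] at this

theorem LL_conj (σ : ℂ ≃+* ℂ) : (T.x.map σ, W.y.map σ) ∈ LL T W := by
  have := (W368.PG.xlg _ (xT T W 0)).2 σ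
  rwa [xT_eq, NN_map _ _ _ (map_zero _)] at this

theorem LL_self : (T.x, W.y) ∈ LL T W := by
  have h1 := LL_conj (T := T) (W := W) (RingEquiv.refl ℂ)
  have h2 : T.x.map (RingEquiv.refl ℂ) = T.x := by
    ext i j
    simp
  have h3 : W.y.map (RingEquiv.refl ℂ) = W.y := by
    ext i j
    simp
  rwa [h2, h3] at h1

theorem LL_star {Z : Matrix (Fin n) (Fin n) ℂ} {V : Matrix (Fin w) (Fin w) ℂ}
    (h : (Z, V) ∈ LL T W) : (-(T.C * Z.map (starRingEnd ℂ) * T.C),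
      -((-(2 * Complex.I)) • W.y * V.map (starRingEnd ℂ) * ((2 * Complex.I) • W.y))) ∈
      LL T W := by
  have h0 := W612.PG.xst _ (xT T W 0) (GG T W 0 (2 * Complex.I)) (GG T W 0 (-(2 * Complex.I)))
    (PP T W 0) PP_sum PP_x PP_G
    (GG_inv _ _ (by ring_nf; rw [Complex.I_sq]; norm_num))
    (GG_inv _ _ (by ring_nf; rw [Complex.I_sq]; norm_num)) _ h
  rw [NN_map _ _ _ (map_zero _)] at h0
  have h2 := (hX (xT T W 0)).neg_mem h0
  have h3 : NN 0 w (-(T.C * Z.map (starRingEnd ℂ) * T.C))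
      (-((-(2 * Complex.I)) • W.y * V.map (starRingEnd ℂ) * ((2 * Complex.I) • W.y))) =
      -(GG T W 0 (-(2 * Complex.I)) *
        NN 0 w (Z.map (starRingEnd ℂ)) (V.map (starRingEnd ℂ)) *
        GG T W 0 (2 * Complex.I)) := by
    unfold NN GG
    rw [fb_mul, fb_mul, fb_mul, fb_mul]
    simp only [Matrix.mul_zero, Matrix.zero_mul, Matrix.neg_mul, Matrix.mul_neg, neg_neg,
      Matrix.fromBlocks_neg, neg_zero]
  change NN 0 w _ _ ∈ hX (xT T W 0)
  rw [h3]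
  exact h2

/-- the Riemann form as a form on `T ⊕ H_1(A)` -/
def tE (W : HW w) (J : Fin 2 → ((Fin 0 ⊕ Fin n) ⊕ Fin w)) : ℚ :=
  Sum.elim (fun _ => 0) (fun a => Sum.elim (fun _ => 0) (fun b => W.E a b) (J 1)) (J 0)

theorem act_tE (Z : Matrix (Fin n) (Fin n) ℂ) (V : Matrix (Fin w) (Fin w) ℂ) (a b : Fin w) :
    act (NN 0 w Z V) (cx (tE W)) ![Sum.inr a, Sum.inr b] =
      (Vᵀ * mC W.E + mC W.E * V) a b := by
  simp only [act, Fin.sum_univ_two, Fintype.sum_sum_type, NN, cx, tE, Matrix.cons_val_zero,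
    Matrix.cons_val_one, Matrix.add_apply, Matrix.mul_apply, Matrix.transpose_apply, mC,
    Matrix.map_apply]
  simp [mul_comm]

theorem LL_skewW {Z : Matrix (Fin n) (Fin n) ℂ} {V : Matrix (Fin w) (Fin w) ℂ}
    (h : (Z, V) ∈ LL T W) : Vᵀ * mC W.E + mC W.E * V = 0 := by
  have h1 : act (xT T W 0) (cx (tE W)) = 0 := by
    funext J
    rcases hJ0 : J 0 with (a | a) | a <;> rcases hJ1 : J 1 with (b | b) | b
    all_goals first | exact a.elim0 | exact b.elim0 | skip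
    · simp only [act, Fin.sum_univ_two, Fintype.sum_sum_type, cx, tE, xT_eq, NN]
      simp [hJ0, hJ1]
    · simp only [act, Fin.sum_univ_two, Fintype.sum_sum_type, cx, tE, xT_eq, NN]
      simp [hJ0, hJ1]
    · simp only [act, Fin.sum_univ_two, Fintype.sum_sum_type, cx, tE, xT_eq, NN]
      simp [hJ0, hJ1]
    · have hJ : J = ![Sum.inr a, Sum.inr b] := by
        funext i
        fin_cases i
        · exact hJ0
        · exact hJ1
      rw [hJ, xT_eq, act_tE, W.skew]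
      rfl
  have h2 := h _ _ h1
  ext a b
  rw [← act_tE Z V a b, h2]
  rfl

/-- A family of rational bilinear forms `j a` on `H_1(A)`, indexed by the basis of `T`, that is a
linear map from `T` to the bilinear forms on `H_1(A)`, is a morphism of Hodge structures. -/
def IsHodgeMap (T : HS n) (W : HW w) (j : Fin n → Matrix (Fin w) (Fin w) ℚ) : Prop :=
  ∀ a, ∑ b, T.x b a • mC (j b) + W.yᵀ * mC (j a) + mC (j a) * W.y = 0

/-- the trilinear form given by `j` -/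
def tJ (j : Fin n → Matrix (Fin w) (Fin w) ℚ) (J : Fin 3 → ((Fin 0 ⊕ Fin n) ⊕ Fin w)) : ℚ :=
  Sum.elim (Sum.elim (fun _ => 0) fun a => Sum.elim (fun _ => 0)
    (fun b => Sum.elim (fun _ => 0) (fun c => j a b c) (J 2)) (J 1)) (fun _ => 0) (J 0)

theorem act_tJ (j : Fin n → Matrix (Fin w) (Fin w) ℚ) (Z : Matrix (Fin n) (Fin n) ℂ)
    (V : Matrix (Fin w) (Fin w) ℂ) (a : Fin n) (b c : Fin w) :
    act (NN 0 w Z V) (cx (tJ j)) ![Sum.inl (Sum.inr a), Sum.inr b, Sum.inr c] =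
      (∑ d, Z d a • mC (j d) + Vᵀ * mC (j a) + mC (j a) * V) b c := by
  simp only [act, Fin.sum_univ_three, Fintype.sum_sum_type, NN, cx, tJ, Matrix.cons_val_zero,
    Matrix.cons_val_one, Matrix.add_apply, Matrix.mul_apply, Matrix.transpose_apply, mC,
    Matrix.map_apply, Matrix.sum_apply, Matrix.smul_apply, smul_eq_mul]
  simp [mul_comm]

theorem LL_cls {j : Fin n → Matrix (Fin w) (Fin w) ℚ} (hj : IsHodgeMap T W j)
    {Z : Matrix (Fin n) (Fin n) ℂ} {V : Matrix (Fin w) (Fin w) ℂ}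
    (h : (Z, V) ∈ LL T W) (a : Fin n) :
    ∑ b, Z b a • mC (j b) + Vᵀ * mC (j a) + mC (j a) * V = 0 := by
  have h1 : act (xT T W 0) (cx (tJ j)) = 0 := by
    funext J
    rcases hJ0 : J 0 with (a | a) | a <;> rcases hJ1 : J 1 with (b | b) | b <;>
      rcases hJ2 : J 2 with (c | c) | c
    all_goals first | exact a.elim0 | exact b.elim0 | exact c.elim0 | skip
    all_goals first
      | (simp only [act, Fin.sum_univ_three, Fintype.sum_sum_type, cx, tJ, xT_eq, NN]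
         simp [hJ0, hJ1, hJ2]
         done)
      | skip
    have hJ : J = ![Sum.inl (Sum.inr a), Sum.inr b, Sum.inr c] := by
      funext i
      fin_cases i
      · exact hJ0
      · exact hJ1
      · exact hJ2
    rw [hJ, xT_eq, act_tJ, hj a]
    rfl
  have h2 := h _ _ h1
  ext b c
  rw [← act_tJ j Z V a b c, h2]
  rfl

/-- The projection to `so(T)` is surjective. -/
theorem LL_surj (hsc : T.Scalar) (hx : (T.x * T.x).trace = 2) (hn : 3 ≤ n)
    {Z : Matrix (Fin n) (Fin n) ℂ} (hZ : Zᵀ * mC T.Q + mC T.Q * Z = 0) :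
    ∃ V, (Z, V) ∈ LL T W := by
  obtain ⟨q, rfl⟩ : ∃ q, n = 2 + q := ⟨n - 2, by omega⟩
  apply prj (2 + q) 1 q T hsc (by rw [hx]; norm_num) rfl one_pos (Or.inl rfl) (hP T W 0) ?_ ?_ ?_
    ?_ Z hZ
  · rintro y ⟨V, hV⟩
    exact LL_skew hV
  · rintro y ⟨V, hV⟩ z ⟨V', hV'⟩
    exact ⟨_, LL_br (P := (y, V)) (P' := (z, V')) hV hV'⟩
  · rintro y ⟨V, hV⟩
    exact ⟨_, LL_star hV⟩
  · intro σ
    exact ⟨_, LL_conj σ⟩

end

end Pool.Agent.L5helper24.KS
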